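import Pool.Agent.N534.HC.Coh

/-!
# Products of independent families of curves: all degrees
-/

set_option autoImplicit false
set_option linter.unusedSectionVars false

namespace Pool.Agent.N534.HC.Tate

open NumberField IsDedekindDomain Finset
open Pool.Agent.N534.HC Pool.Agent.N534.HC.Inst

section
variable {A : Type} [CommRing A]

theorem coeff_aux (q : A) (n m w : ℕ) :
    PowerSeries.coeff w (PowerSeries.X ^ n * (1 + PowerSeries.C q * PowerSeries.X ^ 2) ^ m : PowerSeries A) =
      ∑ b ∈ range (w + 1), if n + 2 * b = w then (m.choose b : A) * q ^ b else 0 := by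
  have h1 : (PowerSeries.X ^ n * (1 + PowerSeries.C q * PowerSeries.X ^ 2) ^ m : PowerSeries A) =
      ∑ b ∈ range (m + 1), PowerSeries.C ((m.choose b : A) * q ^ b) * PowerSeries.X ^ (n + 2 * b) := by
    rw [add_comm (1 : PowerSeries A), add_pow, Finset.mul_sum]
    refine Finset.sum_congr rfl fun b _ => ?_
    rw [one_pow, mul_one, mul_pow, ← pow_mul, map_mul, map_pow, map_natCast, pow_add]
    ring
  rw [h1, map_sum]
  have h2 : ∀ b, PowerSeries.coeff w (PowerSeries.C ((m.choose b : A) * q ^ b) * PowerSeries.X ^ (n + 2 * b) : PowerSeries A) =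
      if n + 2 * b = w then (m.choose b : A) * q ^ b else 0 := by
    intro b
    rw [PowerSeries.coeff_C_mul, PowerSeries.coeff_X_pow]
    by_cases h : n + 2 * b = w
    · rw [if_pos h, if_pos h.symm, mul_one]
    · rw [if_neg h, if_neg (fun h' => h h'.symm), mul_zero]
  simp only [h2]
  have h3 : ∑ b ∈ range (m + 1), (if n + 2 * b = w then (m.choose b : A) * q ^ b else 0) =
      ∑ b ∈ range (m + w + 2), (if n + 2 * b = w then (m.choose b : A) * q ^ b else 0) := by
    refine Finset.sum_subset (Finset.range_mono (by omega)) fun b _ hb => ?_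
    rw [Finset.mem_range, not_lt] at hb
    rw [Nat.choose_eq_zero_of_lt (by omega : m < b)]
    simp
  have h4 : ∑ b ∈ range (w + 1), (if n + 2 * b = w then (m.choose b : A) * q ^ b else 0) =
      ∑ b ∈ range (m + w + 2), (if n + 2 * b = w then (m.choose b : A) * q ^ b else 0) := by
    refine Finset.sum_subset (Finset.range_mono (by omega)) fun b _ hb => ?_
    rw [Finset.mem_range, not_lt] at hb
    rw [if_neg (by omega)]
  rw [h3, h4]

/-- the contribution of the point classes -/
theorem triv_eq (q : A) (r w : ℕ) :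
    ∑ b ∈ range (w + 1), (if 0 + 2 * b = w then (r.choose b : A) * q ^ b else 0) =
      if Even w then (r.choose (w / 2) : A) * q ^ (w / 2) else 0 := by
  split_ifs with h
  · obtain ⟨j, hj⟩ := h
    have hj2 : w / 2 = j := by omega
    rw [Finset.sum_eq_single j]
    · rw [if_pos (by omega), hj2]
    · intro b _ hb
      rw [if_neg (by omega)]
    · intro hn
      exact absurd (Finset.mem_range.2 (by omega)) hn
  · refine Finset.sum_eq_zero fun b _ => ?_
    rw [if_neg]
    intro hb
    exact h ⟨b, by omega⟩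

theorem prod_coeff {R : Type} [Fintype R] [DecidableEq R] (x : R → A) (q : A) (w : ℕ) :
    PowerSeries.coeff w (∏ i, (1 + PowerSeries.C (x i) * PowerSeries.X + PowerSeries.C q * PowerSeries.X ^ 2 : PowerSeries A)) =
      ∑ S : Finset R, (∏ i ∈ S, x i) *
        ∑ b ∈ range (w + 1), (if S.card + 2 * b = w then ((Fintype.card R - S.card).choose b : A) * q ^ b else 0) := by
  have h0 : ∀ i : R, (1 + PowerSeries.C (x i) * PowerSeries.X + PowerSeries.C q * PowerSeries.X ^ 2 : PowerSeries A) =
      PowerSeries.C (x i) * PowerSeries.X + (1 + PowerSeries.C q * PowerSeries.X ^ 2) := fun i => by ring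
  simp only [h0]
  rw [Finset.prod_add, map_sum, Finset.powerset_univ]
  refine Finset.sum_congr rfl fun S _ => ?_
  rw [Finset.prod_mul_distrib, Finset.prod_const, Finset.prod_const, ← map_prod, mul_assoc, PowerSeries.coeff_C_mul,
    coeff_aux, Finset.card_sdiff_of_subset (Finset.subset_univ S), Finset.card_univ]

end

section
variable {R : Type} [Fintype R] [DecidableEq R]

/-- the exponent vector -/
noncomputable def ev (S : Finset R) (b : ℕ) : Option (R × ℕ) →₀ ℕ :=
  (∑ i ∈ S, Finsupp.single (some (i, 0)) 1) + Finsupp.single none b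

theorem ev_sum (S : Finset R) (b : ℕ) (g : Option (R × ℕ) → ℕ) :
    ((ev S b).sum fun x n => n * g x) = (∑ i ∈ S, g (some (i, 0))) + b * g none := by
  unfold ev
  rw [Finsupp.sum_add_index' (fun _ => by simp) (fun _ _ _ => by ring)]
  congr 1
  · rw [← Finsupp.sum_finset_sum_index (fun _ => by simp) (fun _ _ _ => by ring)]
    refine Finset.sum_congr rfl fun i _ => ?_
    rw [Finsupp.sum_single_index (by simp), one_mul]
  · rw [Finsupp.sum_single_index (by simp)]

/-- the character -/
noncomputable def Tc (R : Type) [Fintype R] [DecidableEq R] (w : ℕ) : MvPolynomial (Option (R × ℕ)) ℝ :=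
  ∑ S ∈ (Finset.univ : Finset (Finset R)).filter (fun S => S.Nonempty), ∑ b ∈ range (w + 1),
    if S.card + 2 * b = w then MvPolynomial.monomial (ev S b) (((Fintype.card R - S.card).choose b : ℕ) : ℝ) else 0

theorem Tc_support {w : ℕ} {m : Option (R × ℕ) →₀ ℕ} (hm : m ∈ (Tc R w).support) :
    ∃ (S : Finset R) (b : ℕ), S.Nonempty ∧ S.card + 2 * b = w ∧ m = ev S b := by
  unfold Tc at hm
  have h1 := MvPolynomial.support_sum hm
  rw [Finset.mem_biUnion] at h1
  obtain ⟨S, hS, h2⟩ := h1
  have h3 := MvPolynomial.support_sum h2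
  rw [Finset.mem_biUnion] at h3
  obtain ⟨b, _, h4⟩ := h3
  split_ifs at h4 with h5
  · have h6 := MvPolynomial.support_monomial_subset h4
    rw [Finset.mem_singleton] at h6
    exact ⟨S, b, (Finset.mem_filter.1 hS).2, h5, h6⟩
  · simp at h4

theorem Tc_hasWt (w : ℕ) : HasWt (Tc R w) w := by
  intro m hm
  obtain ⟨S, b, _, h2, rfl⟩ := Tc_support hm
  rw [ev_sum]
  have h3 : ∀ i : R, wgt (R := R) (some (i, 0)) = 1 := fun i => rfl
  have h4 : wgt (R := R) none = 2 := rfl
  simp only [h3, h4, Finset.sum_const, smul_eq_mul, mul_one]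
  omega

theorem Tc_eval (w : ℕ) (x : Option (R × ℕ) → ℝ) :
    MvPolynomial.eval x (Tc R w) = PowerSeries.coeff w (∏ i : R,
      (1 + PowerSeries.C (x (some (i, 0))) * PowerSeries.X + PowerSeries.C (x none) * PowerSeries.X ^ 2 : PowerSeries ℝ)) -
      if Even w then ((Fintype.card R).choose (w / 2) : ℝ) * x none ^ (w / 2) else 0 := by
  rw [prod_coeff, ← triv_eq (x none) (Fintype.card R) w]
  have h1 : ∀ S : Finset R, ∀ b : ℕ, MvPolynomial.eval x
      (if S.card + 2 * b = w then MvPolynomial.monomial (ev S b) (((Fintype.card R - S.card).choose b : ℕ) : ℝ) else 0) =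
      if S.card + 2 * b = w then (∏ i ∈ S, x (some (i, 0))) * (((Fintype.card R - S.card).choose b : ℝ) * x none ^ b) else 0 := by
    intro S b
    split_ifs with h
    · rw [MvPolynomial.eval_monomial]
      unfold ev
      rw [Finsupp.prod_add_index' (fun _ => by simp) (fun _ _ _ => by rw [pow_add]),
        Finsupp.prod_single_index (by simp), ← Finsupp.prod_finset_sum_index (fun _ => by simp) (fun _ _ _ => by rw [pow_add])]
      have h2 : ∀ i : R, ((Finsupp.single (some (i, 0) : Option (R × ℕ)) 1).prod fun (a : Option (R × ℕ)) (n : ℕ) => x a ^ n) =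
          x (some (i, 0)) := by
        intro i
        rw [Finsupp.prod_single_index (by simp), pow_one]
      simp only [h2]
      ring
    · rw [map_zero]
  unfold Tc
  rw [map_sum]
  simp only [map_sum, h1]
  have h2 : ∑ S : Finset R, (∏ i ∈ S, x (some (i, 0))) *
        ∑ b ∈ range (w + 1), (if S.card + 2 * b = w then ((Fintype.card R - S.card).choose b : ℝ) * x none ^ b else 0) =
      ∑ S : Finset R, ∑ b ∈ range (w + 1),
        (if S.card + 2 * b = w then (∏ i ∈ S, x (some (i, 0))) * (((Fintype.card R - S.card).choose b : ℝ) * x none ^ b) else 0) := by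
    refine Finset.sum_congr rfl fun S _ => ?_
    rw [Finset.mul_sum]
    refine Finset.sum_congr rfl fun b _ => ?_
    split_ifs
    · rfl
    · rw [mul_zero]
  rw [h2, ← Finset.sum_filter_add_sum_filter_not Finset.univ (fun S : Finset R => S.Nonempty)]
  have h3 : (Finset.univ : Finset (Finset R)).filter (fun S => ¬ S.Nonempty) = {∅} := by
    ext S
    simp [Finset.not_nonempty_iff_eq_empty]
  rw [h3, Finset.sum_singleton]
  have h4 : ∑ b ∈ range (w + 1), (if (∅ : Finset R).card + 2 * b = w then
      (∏ i ∈ (∅ : Finset R), x (some (i, 0))) * (((Fintype.card R - (∅ : Finset R).card).choose b : ℝ) * x none ^ b) else 0) =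
      ∑ b ∈ range (w + 1), (if 0 + 2 * b = w then ((Fintype.card R).choose b : ℝ) * x none ^ b else 0) := by
    refine Finset.sum_congr rfl fun b _ => ?_
    rw [Finset.card_empty, Finset.prod_empty, one_mul, Nat.sub_zero]
  rw [h4]
  ring

end

/-! ### Independent families -/

section
variable {K : Type} [Field K] [NumberField K] {J : Type} [Fintype J] [DecidableEq J]
  {R : Type} [Fintype R] [DecidableEq R]

open Polynomial

/-- the family with its own parameters -/
noncomputable def ind (F : R → (MvPolynomial J (𝓞 K))[X]) (i : R) : (MvPolynomial (R × J) (𝓞 K))[X] :=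
  (F i).map (MvPolynomial.rename (Prod.mk i)).toRingHom

theorem mem_ind (F : R → (MvPolynomial J (𝓞 K))[X]) (i : R) (c : R × J → ℤ) :
    mem (ind F i) c = mem (F i) (fun l => c (i, l)) := by
  unfold mem ind
  rw [Polynomial.map_map]
  congr 1
  apply RingHom.ext
  intro P
  rw [RingHom.comp_apply]
  exact MvPolynomial.eval_rename _ _ _

theorem ren_inj (i : R) : Function.Injective (MvPolynomial.rename (R := 𝓞 K) (Prod.mk (β := J) i)).toRingHom :=
  MvPolynomial.rename_injective _ (Prod.mk_right_injective i)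

theorem deg_ind (F : R → (MvPolynomial J (𝓞 K))[X]) (i : R) : (ind F i).natDegree = (F i).natDegree :=
  natDegree_map_eq_of_injective (ren_inj i) _

theorem adm_ind (F : R → (MvPolynomial J (𝓞 K))[X]) (hF : ∀ i, Adm (F i)) (i : R) : Adm (ind F i) := by
  obtain ⟨c, h1, h2⟩ := (hF i).ex
  refine ⟨by rw [deg_ind]; exact (hF i).pos, fun x => c x.2, ?_, ?_⟩
  · rw [mem_ind, deg_ind]
    exact h1
  · rw [mem_ind]
    exact h2

theorem scl_ind (F : R → (MvPolynomial J (𝓞 K))[X]) {wt : R → J → ℕ} {a e : R → ℕ}
    (hs : ∀ i, IsScl (F i) (wt i) (a i) (e i)) (i0 i : R) :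
    IsScl (ind F i) (fun x => if x.1 = i0 then wt x.1 x.2 else 0) (if i = i0 then a i else 0) (if i = i0 then e i else 0) := by
  intro G c
  rw [mem_ind, mem_ind]
  by_cases h : i = i0
  · subst h
    simp only [if_true]
    have h1 : (fun l => scl (fun x : R × J => if x.1 = i then wt x.1 x.2 else 0) G c (i, l)) =
        scl (wt i) G (fun l => c (i, l)) := by
      funext l
      simp [scl]
    rw [h1]
    exact hs i G _
  · simp only [if_neg h]
    have h1 : (fun l => scl (fun x : R × J => if x.1 = i0 then wt x.1 x.2 else 0) G c (i, l)) = fun l => c (i, l) := by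
      funext l
      simp [scl, h]
    rw [h1, pow_zero, C_1, one_mul, one_mul, comp_X]

theorem oddMon_ind (F : R → (MvPolynomial J (𝓞 K))[X]) {wt : R → J → ℕ} {a e : R → ℕ}
    (hs : ∀ i, IsScl (F i) (wt i) (a i) (e i)) (he : ∀ i, Odd (e i)) (w : ℕ) :
    ∀ m ∈ (Tc R w).support, OddMon (ind F) m := by
  intro m hm
  obtain ⟨S, b, ⟨i0, hi0⟩, _, rfl⟩ := Tc_support hm
  refine ⟨_, _, _, scl_ind F hs i0, ?_⟩
  rw [ev_sum]
  have h1 : ∀ i : R, par (fun i => if i = i0 then e i else 0) (some (i, 0)) = if i = i0 then e i else 0 := by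
    intro i
    change (if i = i0 then e i else 0) * (0 + 1) = _
    rw [zero_add, mul_one]
  have h2 : par (R := R) (fun i => if i = i0 then e i else 0) none = 0 := rfl
  simp only [h1, h2, mul_zero, add_zero]
  rw [Finset.sum_ite_eq' S i0 e, if_pos hi0]
  exact he i0

end

end Pool.Agent.N534.HC.Tate
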