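import Pool.Agent.N534.HC.NF
import Pool.Agent.N534.AS.Ten

/-!
# The proportion of the singular members modulo primes
-/

set_option autoImplicit false
set_option linter.unusedSectionVars false

namespace Pool.Agent.N534.HC

open NumberField IsDedekindDomain Finset Polynomial
open Pool.Agent.H341R2
open Pool.Agent.H921R2.TatePole (nm two_le_nm below deg nm_eq below_le_nm fiber_card_le below_eq_of_mem)
open Pool.Agent.H341R2.EC (mk_ne)
open Pool.Agent.Y722.HS (EM red EM_mono EM_const p_pos)
open Pool.Agent.N534.EC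
open Pool.Agent.N534.LL (liftp red_liftp)
open Pool.Agent.N534.AS

variable {K : Type} [Field K] [NumberField K] {J : Type} [Fintype J] [DecidableEq J]

/-- `2` times the leading coefficient times the resultant with the derivative -/
noncomputable def Dl (F : (MvPolynomial J (𝓞 K))[X]) : MvPolynomial J (𝓞 K) :=
  2 * (F.leadingCoeff * resultant F F.derivative F.natDegree F.derivative.natDegree)

theorem natDegree_der {R : Type} [CommRing R] [IsDomain R] [CharZero R] (f : R[X]) :
    f.derivative.natDegree = f.natDegree - 1 := by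
  have : IsAddTorsionFree R := inferInstance
  exact natDegree_derivative f

/-- the polynomials with a nonsingular member -/
structure Adm (F : (MvPolynomial J (𝓞 K))[X]) : Prop where
  pos : 1 ≤ F.natDegree
  ex : ∃ c : J → ℤ, (mem F c).natDegree = F.natDegree ∧ ((mem F c).map (algebraMap (𝓞 K) K)).Separable

theorem Dl_ne {F : (MvPolynomial J (𝓞 K))[X]} (h : Adm F) : Dl F ≠ 0 := by
  obtain ⟨c, h1, h2⟩ := h.ex
  intro h0
  have h3 := congrArg (MvPolynomial.eval (fun j => ((c j : ℤ) : 𝓞 K))) h0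
  unfold Dl at h3
  rw [map_mul, map_mul, map_zero, map_ofNat, ← resultant_map_map, ← derivative_map] at h3
  have h4 : MvPolynomial.eval (fun j => ((c j : ℤ) : 𝓞 K)) F.leadingCoeff = (mem F c).leadingCoeff := by
    unfold leadingCoeff
    rw [h1]
    unfold mem
    rw [coeff_map]
  have h5 : mem F c ≠ 0 := by
    intro h6
    rw [h6, natDegree_zero] at h1
    have := h.pos
    omega
  have h6 : F.derivative.natDegree = (mem F c).derivative.natDegree := by
    rw [natDegree_der, natDegree_der, h1]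
  rw [h4] at h3
  have h7 : resultant (mem F c) (mem F c).derivative F.natDegree F.derivative.natDegree ≠ 0 := by
    have hinj : Function.Injective (algebraMap (𝓞 K) K) := RingOfIntegers.coe_injective
    have h8 := resultant_ne_zero _ _ h2
    rw [derivative_map, natDegree_map_eq_of_injective hinj, natDegree_map_eq_of_injective hinj,
      resultant_map_map, h1, ← h6] at h8
    intro h9
    rw [h9, map_zero] at h8
    exact h8 rfl
  rcases mul_eq_zero.1 h3 with h | h
  · exact two_ne_zero h
  · rcases mul_eq_zero.1 h with h | h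
    · exact h5 (leadingCoeff_eq_zero.1 h)
    · exact h7 h

theorem good_of_Dl {F : (MvPolynomial J (𝓞 K))[X]} (h : Adm F) (v : HeightOneSpectrum (𝓞 K)) (c : J → ℤ)
    (hv : Ideal.Quotient.mk v.asIdeal (MvPolynomial.eval (fun j => ((c j : ℤ) : 𝓞 K)) (Dl F)) ≠ 0) :
    Gdv v (rmem F v c) F.natDegree := by
  unfold Dl at hv
  set ev := MvPolynomial.eval (fun j => ((c j : ℤ) : 𝓞 K)) with hev
  set π := Ideal.Quotient.mk v.asIdeal with hπ
  set r := resultant F F.derivative F.natDegree F.derivative.natDegree with hr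
  rw [map_mul, map_mul, map_ofNat, map_mul, map_mul] at hv
  have hv2 : π 2 ≠ 0 := left_ne_zero_of_mul hv
  have hvl : π (ev F.leadingCoeff) ≠ 0 := left_ne_zero_of_mul (right_ne_zero_of_mul hv)
  have hvr : π (ev r) ≠ 0 := right_ne_zero_of_mul (right_ne_zero_of_mul hv)
  have e1 : rmem F v c = F.map (π.comp ev) := by
    unfold rmem mem
    rw [Polynomial.map_map]
  refine ⟨fun h2 => hv2 (Ideal.Quotient.eq_zero_iff_mem.2 h2), ?_, ?_⟩
  · rw [e1]
    exact natDegree_map_of_leadingCoeff_ne_zero _ hvl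
  · obtain ⟨a, b, _, _, hab⟩ := exists_mul_add_mul_eq_C_resultant F F.derivative
      (m := F.natDegree) (n := F.derivative.natDegree) le_rfl le_rfl (Or.inl (by have := h.pos; omega))
    rw [← hr] at hab
    have h3 := congrArg (Polynomial.map (π.comp ev)) hab
    rw [Polynomial.map_add, Polynomial.map_mul, Polynomial.map_mul, map_C, ← derivative_map, ← e1] at h3
    have hcc : (π.comp ev) r ≠ 0 := hvr
    refine ⟨C ((π.comp ev) r)⁻¹ * a.map (π.comp ev), C ((π.comp ev) r)⁻¹ * b.map (π.comp ev), ?_⟩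
    have h4 : C ((π.comp ev) r)⁻¹ * a.map (π.comp ev) * rmem F v c +
        C ((π.comp ev) r)⁻¹ * b.map (π.comp ev) * derivative (rmem F v c) =
        C ((π.comp ev) r)⁻¹ * (rmem F v c * a.map (π.comp ev) + derivative (rmem F v c) * b.map (π.comp ev)) := by
      ring
    rw [h4, h3, ← C_mul, inv_mul_cancel₀ hcc, C_1]

section
variable {R : Type} [Fintype R] [DecidableEq R]

/-- the exceptional classes modulo `p` -/
def BH (F : R → (MvPolynomial J (𝓞 K))[X]) (p : ℕ) (r : J → ZMod p) : Prop :=
  ∃ (i : R) (v : HeightOneSpectrum (𝓞 K)), (p : 𝓞 K) ∈ v.asIdeal ∧ ¬ Gdv v (rmem (F i) v (liftp r)) (F i).natDegree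

theorem exists_not_mem (α : 𝓞 K) (hα : α ≠ 0) (p : Nat.Primes) (v : HeightOneSpectrum (𝓞 K)) (hv : below v = p)
    (hp : Ideal.absNorm (Ideal.span {α}) < (p : ℕ)) : α ∉ v.asIdeal := by
  intro h
  have h1 : Ideal.absNorm v.asIdeal ∣ Ideal.absNorm (Ideal.span {α}) :=
    Ideal.absNorm_dvd_absNorm_of_le ((Ideal.span_singleton_le_iff_mem _).2 h)
  have h2 : Ideal.absNorm (Ideal.span {α}) ≠ 0 := by
    rw [Ne, Ideal.absNorm_eq_zero_iff, Ideal.span_singleton_eq_bot]
    exact hα
  have h3 := Nat.le_of_dvd (Nat.pos_of_ne_zero h2) h1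
  have h4 := below_le_nm v
  rw [hv] at h4
  have h5 : nm v = Ideal.absNorm v.asIdeal := rfl
  omega

theorem bad_one (P : MvPolynomial J (𝓞 K)) (m0 : J →₀ ℕ) (p : Nat.Primes)
    [Fact (p : ℕ).Prime] (v : HeightOneSpectrum (𝓞 K)) (hv : below v = p) (hm : P.coeff m0 ∉ v.asIdeal) :
    EM (p : ℕ) (fun r : J → ZMod (p : ℕ) => open Classical in
      if Ideal.Quotient.mk v.asIdeal (MvPolynomial.eval (fun j => ((liftp r j : ℤ) : 𝓞 K)) P) = 0 then (1 : ℝ) else 0) ≤
      P.totalDegree / (p : ℕ) := by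
  classical
  have hne : P.map (Ideal.Quotient.mk v.asIdeal) ≠ 0 := by
    intro h
    have h1 := congrArg (MvPolynomial.coeff m0) h
    rw [MvPolynomial.coeff_map, MvPolynomial.coeff_zero] at h1
    exact hm (Ideal.Quotient.eq_zero_iff_mem.1 h1)
  have hinj : Function.Injective (fun x : ZMod (p : ℕ) => (((x.val : ℕ) : ℤ) : 𝓞 K ⧸ v.asIdeal)) := by
    intro x y hxy
    have h1 := mk_int_inj p v hv _ _ hxy
    simpa using h1
  have h1 := EM_sz (p : ℕ) _ hinj (P.map (Ideal.Quotient.mk v.asIdeal)) hne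
  have hp0 := p_pos (p := (p : ℕ))
  have hdeg : (P.map (Ideal.Quotient.mk v.asIdeal)).totalDegree ≤ P.totalDegree := by
    unfold MvPolynomial.totalDegree
    exact Finset.sup_mono (MvPolynomial.support_map_subset _ _)
  have h2 : ((P.map (Ideal.Quotient.mk v.asIdeal)).totalDegree : ℝ) / (p : ℕ) ≤ P.totalDegree / (p : ℕ) := by
    gcongr
  refine le_trans (le_of_eq ?_) (h1.trans h2)
  congr 1
  funext r
  rw [mk_eval]
  rfl

variable [Nonempty R]

/-- the product of the polynomials `Dl` -/
noncomputable def DP (F : R → (MvPolynomial J (𝓞 K))[X]) : MvPolynomial J (𝓞 K) := ∏ i, Dl (F i)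

theorem bad_all (F : R → (MvPolynomial J (𝓞 K))[X]) (hF : ∀ i, Adm (F i)) :
    ∃ D : ℝ, 1 ≤ D ∧ ∀ (p : Nat.Primes) [Fact (p : ℕ).Prime],
      EM (p : ℕ) (fun r : J → ZMod (p : ℕ) => open Classical in if BH F (p : ℕ) r then (1 : ℝ) else 0) ≤ D / (p : ℕ) := by
  classical
  have hP : DP F ≠ 0 := Finset.prod_ne_zero_iff.2 fun i _ => Dl_ne (hF i)
  obtain ⟨m0, hm0⟩ := MvPolynomial.ne_zero_iff.1 hP
  set N := Ideal.absNorm (Ideal.span {(DP F).coeff m0}) with hN
  have hd := one_le_dK (K := K)
  refine ⟨N + 1 + dK K * (DP F).totalDegree, by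
    have : 0 ≤ dK K * (DP F).totalDegree := by positivity
    have h2 : (0 : ℝ) ≤ N := by positivity
    linarith, ?_⟩
  intro p hp
  have hp0 := p_pos (p := (p : ℕ))
  by_cases hpN : (p : ℕ) ≤ N
  · have h1 : EM (p : ℕ) (fun r : J → ZMod (p : ℕ) => if BH F (p : ℕ) r then (1 : ℝ) else 0) ≤
        EM (p : ℕ) (fun _ : J → ZMod (p : ℕ) => (1 : ℝ)) := by
      apply EM_mono
      intro r
      split_ifs <;> norm_num
    rw [EM_const] at h1
    refine h1.trans ?_
    rw [le_div_iff₀ hp0, one_mul]
    have h2 : ((p : ℕ) : ℝ) ≤ N := by exact_mod_cast hpN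
    have : 0 ≤ dK K * (DP F).totalDegree := by positivity
    linarith
  · rw [not_le] at hpN
    have h1 : EM (p : ℕ) (fun r : J → ZMod (p : ℕ) => if BH F (p : ℕ) r then (1 : ℝ) else 0) ≤
        EM (p : ℕ) (fun r : J → ZMod (p : ℕ) => ∑ v : {v : HeightOneSpectrum (𝓞 K) // below v = p},
          if Ideal.Quotient.mk v.1.asIdeal (MvPolynomial.eval (fun j => ((liftp r j : ℤ) : 𝓞 K)) (DP F)) = 0
            then (1 : ℝ) else 0) := by
      apply EM_mono
      intro r
      split_ifs with h2
      · obtain ⟨i, v, hv1, hv2⟩ := h2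
        have h3 : below v = p := below_eq_of_mem hv1
        have h4 : Ideal.Quotient.mk v.asIdeal (MvPolynomial.eval (fun j => ((liftp r j : ℤ) : 𝓞 K)) (DP F)) = 0 := by
          by_contra hne
          apply hv2
          apply good_of_Dl (hF i)
          intro h0
          apply hne
          unfold DP
          rw [map_prod, map_prod]
          exact Finset.prod_eq_zero (Finset.mem_univ i) h0
        have h5 := Finset.single_le_sum (s := Finset.univ)
          (f := fun v : {v : HeightOneSpectrum (𝓞 K) // below v = p} =>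
            if Ideal.Quotient.mk v.1.asIdeal (MvPolynomial.eval (fun j => ((liftp r j : ℤ) : 𝓞 K)) (DP F)) = 0
            then (1 : ℝ) else 0)
          (fun v _ => by split_ifs <;> norm_num) (Finset.mem_univ ⟨v, h3⟩)
        simp only [if_pos h4] at h5
        exact h5
      · exact Finset.sum_nonneg fun v _ => by split_ifs <;> norm_num
    refine h1.trans ?_
    rw [EM_sum']
    refine (sum_fib_le (K := K) p
      (fun v => EM (p : ℕ) (fun r : J → ZMod (p : ℕ) =>
        if Ideal.Quotient.mk v.1.asIdeal (MvPolynomial.eval (fun j => ((liftp r j : ℤ) : 𝓞 K)) (DP F)) = 0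
            then (1 : ℝ) else 0))
      ((DP F).totalDegree / (p : ℕ)) (by positivity)
      (fun v => bad_one (DP F) m0 p v.1 v.2 (exists_not_mem _ hm0 p v.1 v.2 hpN))).trans ?_
    rw [mul_div_assoc']
    have h2 : (0 : ℝ) ≤ N := by positivity
    gcongr
    linarith

end

end Pool.Agent.N534.HC
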