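import Pool.Agent.N534.HC.Inst

/-!
# The cohomology of products of curves and Jacobians
-/

set_option autoImplicit false
set_option linter.unusedSectionVars false

namespace Pool.Agent.N534.HC.Coh

open NumberField IsDedekindDomain Finset
open Pool.Agent.N534.HC

/-- Newton's identities: the elementary symmetric functions in terms of the power sums -/
noncomputable def wedge (P : ℕ → ℝ) : ℕ → ℝ
  | 0 => 1
  | n + 1 => (∑ l : Fin (n + 1), (-1) ^ (l : ℕ) * wedge P (n - l) * P (l + 1)) / (n + 1)
decreasing_by omega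

/-- the trace polynomial of a curve or of its Jacobian; `q` the norm, `P l` the trace of the `l`-th power on `H¹` -/
noncomputable def cohom (jac : Bool) (q : ℝ) (P : ℕ → ℝ) : PowerSeries ℝ :=
  if jac then PowerSeries.mk (wedge P) else 1 + PowerSeries.C (P 1) * PowerSeries.X + PowerSeries.C q * PowerSeries.X ^ 2

section
variable {R : Type}

/-- graded power series -/
def Gr (Q : PowerSeries (MvPolynomial (Option (R × ℕ)) ℝ)) : Prop :=
  ∀ n, MvPolynomial.IsWeightedHomogeneous (wgt (R := R)) (PowerSeries.coeff n Q) n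

theorem Gr.one : Gr (R := R) 1 := by
  intro n
  rw [PowerSeries.coeff_one]
  split_ifs with h
  · rw [h]
    exact MvPolynomial.isWeightedHomogeneous_one _ _
  · exact MvPolynomial.isWeightedHomogeneous_zero _ _ _

theorem Gr.mul {Q Q' : PowerSeries (MvPolynomial (Option (R × ℕ)) ℝ)} (h : Gr Q) (h' : Gr Q') : Gr (Q * Q') := by
  intro n
  rw [PowerSeries.coeff_mul]
  refine MvPolynomial.IsWeightedHomogeneous.sum _ _ _ fun x hx => ?_
  rw [Finset.HasAntidiagonal.mem_antidiagonal] at hx
  rw [← hx]
  exact (h x.1).mul (h' x.2)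

theorem Gr.prod [Fintype R] (Q : R → PowerSeries (MvPolynomial (Option (R × ℕ)) ℝ)) (h : ∀ i, Gr (Q i)) :
    Gr (∏ i, Q i) :=
  Finset.prod_induction _ Gr (fun _ _ => Gr.mul) Gr.one fun i _ => h i

/-- the elementary symmetric function as a polynomial in the power sums -/
noncomputable def Wd (i : R) : ℕ → MvPolynomial (Option (R × ℕ)) ℝ
  | 0 => 1
  | n + 1 => MvPolynomial.C (1 / ((n : ℝ) + 1)) *
      ∑ l : Fin (n + 1), MvPolynomial.C ((-1 : ℝ) ^ (l : ℕ)) * (Wd i (n - l) * MvPolynomial.X (some (i, (l : ℕ))))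
decreasing_by omega

theorem Wd_hom (i : R) (n : ℕ) : MvPolynomial.IsWeightedHomogeneous (wgt (R := R)) (Wd i n) n := by
  induction n using Nat.strong_induction_on with
  | _ n ih =>
    match n with
    | 0 =>
      rw [Wd]
      exact MvPolynomial.isWeightedHomogeneous_one _ _
    | n + 1 =>
      rw [Wd]
      refine MvPolynomial.IsWeightedHomogeneous.C_mul ?_ _
      refine MvPolynomial.IsWeightedHomogeneous.sum _ _ _ fun l _ => ?_
      refine MvPolynomial.IsWeightedHomogeneous.C_mul ?_ _
      have h1 := ih (n - l) (by omega)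
      have h2 := MvPolynomial.isWeightedHomogeneous_X ℝ (wgt (R := R)) (some (i, (l : ℕ)))
      have h3 := h1.mul h2
      have h4 : n - (l : ℕ) + wgt (R := R) (some (i, (l : ℕ))) = n + 1 := by
        have := l.2
        change n - (l : ℕ) + ((l : ℕ) + 1) = n + 1
        omega
      rwa [h4] at h3

theorem Wd_eval (i : R) (x : Option (R × ℕ) → ℝ) (P : ℕ → ℝ) (hP : ∀ l, x (some (i, l)) = P (l + 1)) (n : ℕ) :
    MvPolynomial.eval x (Wd i n) = wedge P n := by
  induction n using Nat.strong_induction_on with
  | _ n ih =>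
    match n with
    | 0 =>
      rw [Wd, wedge, map_one]
    | n + 1 =>
      rw [Wd, wedge, map_mul, map_sum, MvPolynomial.eval_C, one_div, div_eq_inv_mul]
      congr 1
      refine Finset.sum_congr rfl fun l _ => ?_
      rw [map_mul, map_mul, MvPolynomial.eval_C, MvPolynomial.eval_X, ih (n - l) (by omega), hP, mul_assoc]

/-- the trace polynomial with polynomial coefficients -/
noncomputable def Qd (jac : R → Bool) (i : R) : PowerSeries (MvPolynomial (Option (R × ℕ)) ℝ) :=
  if jac i then PowerSeries.mk (Wd i) else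
    1 + PowerSeries.C (MvPolynomial.X (some (i, 0))) * PowerSeries.X + PowerSeries.C (MvPolynomial.X none) * PowerSeries.X ^ 2

theorem Qd_gr (jac : R → Bool) (i : R) : Gr (Qd jac i) := by
  intro n
  unfold Qd
  split_ifs with h
  · rw [PowerSeries.coeff_mk]
    exact Wd_hom i n
  · rw [map_add, map_add, PowerSeries.coeff_one, PowerSeries.coeff_C_mul, PowerSeries.coeff_C_mul, PowerSeries.coeff_X,
      PowerSeries.coeff_X_pow]
    refine MvPolynomial.IsWeightedHomogeneous.add (MvPolynomial.IsWeightedHomogeneous.add ?_ ?_) ?_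
    · split_ifs with h1
      · rw [h1]
        exact MvPolynomial.isWeightedHomogeneous_one _ _
      · exact MvPolynomial.isWeightedHomogeneous_zero _ _ _
    · split_ifs with h1
      · rw [mul_one, h1]
        exact MvPolynomial.isWeightedHomogeneous_X ℝ (wgt (R := R)) (some (i, 0))
      · rw [mul_zero]
        exact MvPolynomial.isWeightedHomogeneous_zero _ _ _
    · split_ifs with h1
      · rw [mul_one, h1]
        exact MvPolynomial.isWeightedHomogeneous_X ℝ (wgt (R := R)) none
      · rw [mul_zero]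
        exact MvPolynomial.isWeightedHomogeneous_zero _ _ _

theorem Qd_map (jac : R → Bool) (i : R) (x : Option (R × ℕ) → ℝ) (P : ℕ → ℝ) (hP : ∀ l, x (some (i, l)) = P (l + 1)) :
    PowerSeries.map (MvPolynomial.eval x) (Qd jac i) = cohom (jac i) (x none) P := by
  unfold Qd cohom
  split_ifs with h
  · ext n
    rw [PowerSeries.coeff_map, PowerSeries.coeff_mk, PowerSeries.coeff_mk]
    exact Wd_eval i x P hP n
  · rw [map_add, map_add, map_one, map_mul, map_mul, map_pow, PowerSeries.map_C, PowerSeries.map_C, PowerSeries.map_X,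
      MvPolynomial.eval_X, MvPolynomial.eval_X, hP]

variable [Fintype R]

/-- the character of the `n`-th cohomology -/
noncomputable def Hd (jac : R → Bool) (n : ℕ) : MvPolynomial (Option (R × ℕ)) ℝ :=
  PowerSeries.coeff n (∏ i, Qd jac i)

theorem Hd_hom (jac : R → Bool) (n : ℕ) : MvPolynomial.IsWeightedHomogeneous (wgt (R := R)) (Hd jac n) n :=
  Gr.prod _ (Qd_gr jac) n

theorem Hd_eval (jac : R → Bool) (n : ℕ) (x : Option (R × ℕ) → ℝ) (P : R → ℕ → ℝ)
    (hP : ∀ i l, x (some (i, l)) = P i (l + 1)) :
    MvPolynomial.eval x (Hd jac n) = PowerSeries.coeff n (∏ i, cohom (jac i) (x none) (P i)) := by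
  unfold Hd
  rw [← PowerSeries.coeff_map, map_prod]
  congr 2
  funext i
  exact Qd_map jac i x (P i) (hP i)

end

end Pool.Agent.N534.HC.Coh
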