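import Pool.Agent.N534.HC.Coh

/-!
# Weighted homogeneous families of elliptic curves over `ℤ`, over a number field
-/

set_option autoImplicit false
set_option linter.unusedSectionVars false

namespace Pool.Agent.N534.HC.Cub

open NumberField IsDedekindDomain Finset Polynomial
open Pool.Agent.N534.HC Pool.Agent.N534.HC.Inst

variable {K : Type} [Field K] [NumberField K] {J : Type} [Fintype J] [DecidableEq J]

/-- the family -/
noncomputable def cub (K : Type) [Field K] [NumberField K] (A B : MvPolynomial J ℤ) : (MvPolynomial J (𝓞 K))[X] :=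
  X ^ 3 + C (A.map (Int.castRingHom (𝓞 K))) * X + C (B.map (Int.castRingHom (𝓞 K)))

theorem eval_cast (A : MvPolynomial J ℤ) (c : J → ℤ) :
    MvPolynomial.eval (fun j => ((c j : ℤ) : 𝓞 K)) (A.map (Int.castRingHom (𝓞 K))) =
      ((MvPolynomial.eval c A : ℤ) : 𝓞 K) := by
  rw [MvPolynomial.eval_map]
  have h := MvPolynomial.eval₂_comp_left (Int.castRingHom (𝓞 K)) (RingHom.id ℤ) c A
  rw [MvPolynomial.eval₂_id] at h
  exact h.symm

theorem mem_cub (A B : MvPolynomial J ℤ) (c : J → ℤ) : mem (cub K A B) c =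
    X ^ 3 + C (((MvPolynomial.eval c A : ℤ) : 𝓞 K)) * X + C (((MvPolynomial.eval c B : ℤ) : 𝓞 K)) := by
  unfold mem cub
  rw [Polynomial.map_add, Polynomial.map_add, Polynomial.map_mul, Polynomial.map_pow, Polynomial.map_X,
    Polynomial.map_C, Polynomial.map_C, eval_cast, eval_cast]

theorem deg_cubic {S : Type} [CommRing S] [Nontrivial S] (a b : S) : (X ^ 3 + C a * X + C b : S[X]).natDegree = 3 := by
  compute_degree!

theorem sep_cubic {k : Type} [Field k] (a b : k) (h : 4 * a ^ 3 + 27 * b ^ 2 ≠ 0) :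
    (X ^ 3 + C a * X + C b : k[X]).Separable := by
  set Δ : k := 4 * a ^ 3 + 27 * b ^ 2 with hΔ
  have hd : derivative (X ^ 3 + C a * X + C b : k[X]) = 3 * X ^ 2 + C a := by
    simp only [derivative_add, derivative_X_pow, derivative_mul, derivative_C, derivative_X]
    simp [map_ofNat]
  refine ⟨C Δ⁻¹ * (-(18 * C a * X) + 27 * C b), C Δ⁻¹ * (6 * C a * X ^ 2 - 9 * C b * X + 4 * C a ^ 2), ?_⟩
  rw [hd]
  have h1 : (-(18 * C a * X) + 27 * C b) * (X ^ 3 + C a * X + C b) +
      (6 * C a * X ^ 2 - 9 * C b * X + 4 * C a ^ 2) * (3 * X ^ 2 + C a) = C Δ := by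
    rw [hΔ]
    simp only [map_add, map_mul, map_pow, map_ofNat]
    ring
  calc _ = C Δ⁻¹ * ((-(18 * C a * X) + 27 * C b) * (X ^ 3 + C a * X + C b) +
      (6 * C a * X ^ 2 - 9 * C b * X + 4 * C a ^ 2) * (3 * X ^ 2 + C a)) := by ring
    _ = 1 := by rw [h1, ← C_mul, inv_mul_cancel₀ h, C_1]

theorem adm_cub {A B : MvPolynomial J ℤ}
    (h : ∃ c : J → ℤ, 4 * (MvPolynomial.eval c A) ^ 3 + 27 * (MvPolynomial.eval c B) ^ 2 ≠ 0) :
    Adm (cub K A B) := by
  obtain ⟨c, hc⟩ := h
  have hd : (cub K A B).natDegree = 3 := deg_cubic _ _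
  refine ⟨by rw [hd]; norm_num, c, ?_, ?_⟩
  · rw [mem_cub, hd]
    exact deg_cubic _ _
  · rw [mem_cub, Polynomial.map_add, Polynomial.map_add, Polynomial.map_mul, Polynomial.map_pow, Polynomial.map_X,
      Polynomial.map_C, Polynomial.map_C, map_intCast, map_intCast]
    apply sep_cubic
    have h1 : ((4 * (MvPolynomial.eval c A) ^ 3 + 27 * (MvPolynomial.eval c B) ^ 2 : ℤ) : K) ≠ 0 := by
      exact_mod_cast hc
    push_cast at h1
    exact h1

theorem scl_cub {A B : MvPolynomial J ℤ} {wt : J → ℕ} {m : ℕ}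
    (hA : ∀ (G : ℤ) (c : J → ℤ), MvPolynomial.eval (fun j => G ^ wt j * c j) A = G ^ (2 * m) * MvPolynomial.eval c A)
    (hB : ∀ (G : ℤ) (c : J → ℤ), MvPolynomial.eval (fun j => G ^ wt j * c j) B = G ^ (3 * m) * MvPolynomial.eval c B) :
    IsScl (cub K A B) wt m (3 * m) := by
  intro G c
  rw [mem_cub, mem_cub]
  unfold scl
  rw [hA, hB]
  simp only [add_comp, mul_comp, pow_comp, X_comp, C_comp]
  push_cast
  simp only [map_mul, map_pow]
  ring

end Pool.Agent.N534.HC.Cub
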