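import Pool.Agent.N534.AS.LawA

/-!
# Euler products over number fields given by local traces: general form of the two theorems
-/

set_option autoImplicit false
set_option linter.unusedSectionVars false

namespace Pool.Agent.N534.HC.St

open NumberField IsDedekindDomain Finset Filter Topology MeasureTheory
open Pool.Agent.H921R2.TatePole (nm two_le_nm below deg nm_eq below_eq_of_mem)
open Pool.Agent.Y722.HS (red)
open Pool.Agent.N534.EC
open Pool.Agent.N534.LL (Sys PP PS Y liftp law red_liftp)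
open Pool.Agent.N534.PS (Pow lamT trm rect)
open Pool.Agent.N534.AS
open Pool.Agent.N534.AS.State (mem_iff log_deg)
open Pool.Agent.N534.EC.State (Residues uniform lift box primesUpTo range_PS)

variable {K : Type} [Field K] [NumberField K]

open Classical in
/-- the trace of the `k`-th power of the Frobenius at `p` -/
noncomputable def frobTrace (t : HeightOneSpectrum (𝓞 K) → ℕ → ℝ) (p k : ℕ) : ℝ :=
  ∑ᶠ v : {v : HeightOneSpectrum (𝓞 K) // (p : 𝓞 K) ∈ v.asIdeal},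
    if Nat.log p (Ideal.absNorm v.1.asIdeal) ∣ k then
      (Nat.log p (Ideal.absNorm v.1.asIdeal) : ℝ) * t v.1 (k / Nat.log p (Ideal.absNorm v.1.asIdeal))
    else 0

open Classical in
/-- the logarithm of the Euler factor -/
noncomputable def logFactor (t : HeightOneSpectrum (𝓞 K) → ℕ → ℝ) (G : HeightOneSpectrum (𝓞 K) → Prop)
    (s : ℂ) (p : ℕ) : ℂ :=
  if ∃ v : HeightOneSpectrum (𝓞 K), (p : 𝓞 K) ∈ v.asIdeal ∧ ¬ G v then 0 else
    ∑' k : ℕ, (frobTrace t p (k + 1) : ℂ) / ((k : ℂ) + 1) * (p : ℂ) ^ (-(((k : ℂ) + 1) * s))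

/-- the logarithm of the L-function -/
noncomputable def logL (t : HeightOneSpectrum (𝓞 K) → ℕ → ℝ) (G : HeightOneSpectrum (𝓞 K) → Prop) (s : ℂ) : ℂ :=
  ∑' p : Nat.Primes, logFactor t G s (p : ℕ)

/-- the L-function -/
noncomputable def LSeries (t : HeightOneSpectrum (𝓞 K) → ℕ → ℝ) (G : HeightOneSpectrum (𝓞 K) → Prop) (s : ℂ) : ℂ :=
  ∏' p : Nat.Primes, Complex.exp (logFactor t G s (p : ℕ))

/-- the rectangle -/
def rectangle (w H : ℕ) (T : ℝ) : Set ℂ :=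
  {s | 1 + (w : ℝ) / 2 + 1 / Real.log H ≤ s.re ∧ s.re ≤ 2 + (w : ℝ) / 2 ∧ |s.im| ≤ T}

theorem fsum_eq (p : Nat.Primes) (f : HeightOneSpectrum (𝓞 K) → ℝ) :
    ∑ᶠ v : {v : HeightOneSpectrum (𝓞 K) // ((p : ℕ) : 𝓞 K) ∈ v.asIdeal}, f v.1 =
      ∑ v : {v : HeightOneSpectrum (𝓞 K) // below v = p}, f v.1 := by
  have h1 := finsum_comp_equiv (Equiv.subtypeEquivRight (mem_iff (K := K) p))
    (f := fun v : {v : HeightOneSpectrum (𝓞 K) // below v = p} => f v.1)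
  rw [← finsum_eq_sum_of_fintype, ← h1]
  rfl

theorem frobTrace_eq (t : HeightOneSpectrum (𝓞 K) → ℕ → ℝ) (p : Nat.Primes) (k : ℕ) :
    frobTrace t (p : ℕ) k = open Classical in ∑ v : {v : HeightOneSpectrum (𝓞 K) // below v = p},
      if deg v.1 ∣ k then (deg v.1 : ℝ) * t v.1 (k / deg v.1) else 0 := by
  classical
  unfold frobTrace
  have h1 := fsum_eq p (fun v : HeightOneSpectrum (𝓞 K) =>
    if Nat.log (p : ℕ) (Ideal.absNorm v.asIdeal) ∣ k then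
      (Nat.log (p : ℕ) (Ideal.absNorm v.asIdeal) : ℝ) * t v (k / Nat.log (p : ℕ) (Ideal.absNorm v.asIdeal))
    else 0)
  rw [h1]
  refine Finset.sum_congr rfl fun v _ => ?_
  simp only [log_deg p v.1 v.2]

section
variable {ι : Type} [Fintype ι] [DecidableEq ι]

/-- the local traces are given by the power sums `T` on the residue classes outside of `Bad` -/
structure Cmp (w p0 : ℕ) (T : ∀ p : ℕ, ℕ → (ι → ZMod p) → ℝ) (Bad : ∀ p : ℕ, (ι → ZMod p) → Prop)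
    (t : (ι → ℤ) → HeightOneSpectrum (𝓞 K) → ℕ → ℝ) (G : (ι → ℤ) → HeightOneSpectrum (𝓞 K) → Prop) : Prop where
  bad : ∀ (p : Nat.Primes) (c : ι → ℤ), p0 ≤ (p : ℕ) → (Bad (p : ℕ) (red (p : ℕ) c) ↔
    ∃ v : HeightOneSpectrum (𝓞 K), ((p : ℕ) : 𝓞 K) ∈ v.asIdeal ∧ ¬ G c v)
  val : ∀ (p : Nat.Primes) (c : ι → ℤ) (k : ℕ), p0 ≤ (p : ℕ) → ¬ Bad (p : ℕ) (red (p : ℕ) c) → 1 ≤ k →
    T (p : ℕ) k (red (p : ℕ) c) = frobTrace (t c) (p : ℕ) k
  small : ∀ (p : Nat.Primes) (c : ι → ℤ), (p : ℕ) < p0 →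
    ∃ v : HeightOneSpectrum (𝓞 K), ((p : ℕ) : 𝓞 K) ∈ v.asIdeal ∧ ¬ G c v

variable {w p0 : ℕ} {T : ∀ p : ℕ, ℕ → (ι → ZMod p) → ℝ} {Bad : ∀ p : ℕ, (ι → ZMod p) → Prop}
  {t : (ι → ℤ) → HeightOneSpectrum (𝓞 K) → ℕ → ℝ} {G : (ι → ℤ) → HeightOneSpectrum (𝓞 K) → Prop}

theorem logFactor_eq (h : Cmp w p0 T Bad t G) (c : ι → ℤ) (s : ℂ) (p : Nat.Primes) :
    logFactor (t c) (G c) s (p : ℕ) = lamT w p0 T Bad c (p : ℕ) (s - (1 + (w : ℂ) / 2)) := by
  unfold logFactor lamT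
  by_cases h5 : p0 ≤ (p : ℕ)
  · have hB := h.bad p c h5
    by_cases hb : Bad (p : ℕ) (red (p : ℕ) c)
    · rw [if_pos (hB.mp hb), if_neg (fun h => h.2.2 hb)]
    · rw [if_neg (fun h => hb (hB.mpr h)), if_pos ⟨p.2, h5, hb⟩]
      refine tsum_congr fun k => ?_
      unfold trm
      rw [h.val p c (k + 1) h5 hb (by omega)]
      congr 2
      ring
  · rw [if_pos (h.small p c (by omega)), if_neg (fun h => h5 h.2.1)]

theorem logL_eq (h : Cmp w p0 T Bad t G) (c : ι → ℤ) (s : ℂ) :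
    logL (t c) (G c) s = ∑' p : Nat.Primes, lamT w p0 T Bad c (p : ℕ) (s - (1 + (w : ℂ) / 2)) :=
  tsum_congr fun p => logFactor_eq h c s p

variable {D : ℝ}

theorem LSeries_eq (h : Cmp w p0 T Bad t G) (hp : Pow D w p0 T Bad) (c : ι → ℤ) (s : ℂ)
    (hs : 1 + (w : ℝ) / 2 < s.re) : LSeries (t c) (G c) s = Complex.exp (logL (t c) (G c) s) := by
  rw [logL_eq h]
  unfold LSeries
  rw [← hp.exp_lam c (by rw [State.re_sub]; linarith)]
  exact tprod_congr fun p => by rw [logFactor_eq h]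

/-- **The supremum near the edge.** -/
theorem avgC (h : Cmp w p0 T Bad t G) (hp : Pow D w p0 T Bad) :
    ∃ C : ℝ, 0 < C ∧ ∀ H : ℕ, 2 ≤ H → ∀ τ : ℝ, 0 ≤ τ →
      (∀ X ⊆ box ι H, ∀ s : (ι → ℤ) → ℂ, (∀ c ∈ X, s c ∈ rectangle w H τ) →
        ∑ c ∈ X, ‖logL (t c) (G c) (s c)‖ ^ 2 ≤ C * (1 + τ) * (box ι H).card) ∧
      (∀ δ : ℝ, 0 < δ → ∃ X ⊆ box ι H, (X.card : ℝ) ≤ δ * (box ι H).card ∧
        ∀ c ∈ box ι H \ X, ∀ s ∈ rectangle w H τ, ‖logL (t c) (G c) s‖ ≤ Real.sqrt (C * (1 + τ) / δ)) := by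
  have hlog := fun (c : ι → ℤ) (s : ℂ) => logL_eq h c s
  obtain ⟨C, hC, hav⟩ := hp.avg
  have hrect : ∀ (H : ℕ) (τ : ℝ) (s : ℂ), s ∈ rectangle w H τ → s - (1 + (w : ℂ) / 2) ∈ rect H τ := by
    intro H τ s hs
    obtain ⟨h1, h2, h3⟩ := hs
    refine ⟨?_, ?_, ?_⟩
    · rw [State.re_sub]; linarith
    · rw [State.re_sub]; linarith
    · rw [State.im_sub]; exact h3
  refine ⟨C, hC, fun H hH τ hτ => ?_⟩
  obtain ⟨h1, h2⟩ := hav H hH τ hτ
  refine ⟨fun X hX s hs => ?_, fun δ hδ => ?_⟩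
  · have h3 := h1 X hX (fun c => s c - (1 + (w : ℂ) / 2)) (fun c hc => hrect H τ _ (hs c hc))
    simp only [← hlog] at h3
    exact h3
  · obtain ⟨X, hX1, hX2, hX3⟩ := h2 δ hδ
    refine ⟨X, hX1, hX2, fun c hc s hs => ?_⟩
    have h3 := hX3 c hc _ (hrect H τ s hs)
    rw [← hlog] at h3
    exact h3

/-- the logarithm of the random Euler product over the primes `p ≤ z` -/
noncomputable def randomLog (t : (ι → ℤ) → HeightOneSpectrum (𝓞 K) → ℕ → ℝ)
    (G : (ι → ℤ) → HeightOneSpectrum (𝓞 K) → Prop) (z : ℕ) (s : ℂ) (x : Residues ι) : ℂ :=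
  ∑ p ∈ primesUpTo z, logFactor (t (lift x p)) (G (lift x p)) s (p : ℕ)

theorem randomLog_eq (h : Cmp w p0 T Bad t G) (z : ℕ) (s : ℂ) (x : Residues ι) :
    randomLog t G z s x = Y (lamT w p0 T Bad) z (s - (1 + (w : ℂ) / 2)) x := by
  unfold randomLog Y
  rw [range_PS]
  exact Finset.sum_congr rfl fun p _ => logFactor_eq h (lift x p) s p

/-- **The limit law.** -/
theorem lawC (h : Cmp w p0 T Bad t G) (hp : Pow D w p0 T Bad)
    {κ : Type} [Fintype κ] (s : κ → ℂ) (hs : ∀ k, 1 + (w : ℝ) / 2 ≤ (s k).re) :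
    ∃ Z : κ → Residues ι → ℂ, (∀ k, Measurable (Z k)) ∧ (∀ k, Integrable (Z k) (uniform ι)) ∧
      (∀ k, Tendsto (fun z : ℕ => ∫ x, ‖randomLog t G z (s k) x - Z k x‖ ∂(uniform ι)) atTop (𝓝 0)) ∧
      ∀ σ : ℕ → κ → ℂ, (∀ k, Tendsto (fun H => σ H k) atTop (𝓝 (s k))) →
        (∀ k, Tendsto (fun H : ℕ => ((σ H k).re - (1 + (w : ℝ) / 2)) * Real.log H) atTop atTop) →
        (∀ F : (κ → ℂ) → ℝ, Continuous F → (∃ C : ℝ, ∀ y, |F y| ≤ C) →
          Tendsto (fun H : ℕ => (∑ c ∈ box ι H, F (fun k => LSeries (t c) (G c) (σ H k))) /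
            (box ι H).card) atTop (𝓝 (∫ x, F (fun k => Complex.exp (Z k x)) ∂(uniform ι)))) ∧
        (∀ E : Set (κ → ℂ), MeasurableSet E →
          uniform ι {x | (fun k => Complex.exp (Z k x)) ∈ frontier E} = 0 →
          Tendsto (fun H : ℕ => (open Classical in ((box ι H).filter
            (fun c => (fun k => LSeries (t c) (G c) (σ H k)) ∈ E)).card : ℝ) /
              (box ι H).card) atTop
            (𝓝 ((uniform ι).real {x | (fun k => Complex.exp (Z k x)) ∈ E}))) := by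
  set e : ℂ := 1 + (w : ℂ) / 2 with he
  have hre : ∀ z : ℂ, (z - e).re = z.re - (1 + (w : ℝ) / 2) := fun z => State.re_sub z _
  obtain ⟨Z, h1, h2, h3, h4⟩ := law hp.sys (fun k => s k - e) (fun k => by rw [hre]; linarith [hs k])
  refine ⟨Z, h1, h2, fun k => ?_, fun σ hσ hσl => ?_⟩
  · have h5 := h3 k
    simp only [he, ← randomLog_eq h] at h5
    exact h5
  · have hlogN : Tendsto (fun H : ℕ => Real.log H) atTop atTop :=
      Real.tendsto_log_atTop.comp tendsto_natCast_atTop_atTop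
    have hpos : ∀ k, ∀ᶠ H : ℕ in atTop, 1 + (w : ℝ) / 2 < (σ H k).re := by
      intro k
      filter_upwards [(hσl k).eventually_gt_atTop 0, hlogN.eventually_gt_atTop 0] with H h1 h2
      have := pos_of_mul_pos_left h1 h2.le
      linarith
    exact h4 (fun H k => σ H k - e) (fun k => (hσ k).sub_const _) (fun k => by
      simpa only [hre] using hσl k)
      (fun H c k => LSeries (t c) (G c) (σ H k)) (by
      filter_upwards [eventually_all.mpr hpos] with H hH c _ k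
      rw [LSeries_eq h hp c _ (hH k), logL_eq h])

end

end Pool.Agent.N534.HC.St
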