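import Pool.Agent.N534.HC.Pol
import Pool.Agent.N534.HC.State

/-!
# Families of hyperelliptic curves: the two theorems in terms of point counts
-/

set_option autoImplicit false
set_option linter.unusedSectionVars false

namespace Pool.Agent.N534.HC.Inst

open NumberField IsDedekindDomain Finset Polynomial
open Pool.Agent.H341R2
open Pool.Agent.H126T (affPts)
open Pool.Agent.H921R2.TatePole (nm two_le_nm below deg nm_eq below_le_nm fiber_card_le below_eq_of_mem)
open Pool.Agent.Y722.HS (EM red EM_mono EM_const p_pos)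
open Pool.Agent.N534.EC
open Pool.Agent.N534.LL (liftp red_liftp)
open Pool.Agent.N534.AS
open Pool.Agent.N534.AS.State (mem_iff log_deg)
open Pool.Agent.N534.PS (Pow lamT trm)
open Pool.Agent.N534.HC Pool.Agent.N534.HC.St

variable {K : Type} [Field K] [NumberField K]

/-- number of affine points of `y² = g(x)` over the extension of degree `m` of the finite field `k` -/
noncomputable def affineCount (k : Type) [Field k] (g : k[X]) (m : ℕ) : ℕ :=
  Nat.card {P : AlgebraicClosure k × AlgebraicClosure k //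
    P.1 ^ (Nat.card k ^ m) = P.1 ∧ P.2 ^ (Nat.card k ^ m) = P.2 ∧ P.2 ^ 2 = aeval P.1 g}

/-- number of points at infinity -/
noncomputable def infinityCount (k : Type) [Field k] (g : k[X]) (m : ℕ) : ℕ :=
  if Odd g.natDegree then 1 else
    Nat.card {y : AlgebraicClosure k // y ^ (Nat.card k ^ m) = y ∧
      y ^ 2 = algebraMap k (AlgebraicClosure k) g.leadingCoeff}

/-- trace of the `m`-th power of the Frobenius at `v` -/
noncomputable def trace (f : (𝓞 K)[X]) (v : HeightOneSpectrum (𝓞 K)) (m : ℕ) : ℤ :=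
  haveI : v.asIdeal.IsMaximal := v.isMaximal
  letI : Field (𝓞 K ⧸ v.asIdeal) := Ideal.Quotient.field v.asIdeal
  ((Ideal.absNorm v.asIdeal : ℕ) : ℤ) ^ m + 1 -
    (affineCount (𝓞 K ⧸ v.asIdeal) (f.map (Ideal.Quotient.mk v.asIdeal)) m +
      infinityCount (𝓞 K ⧸ v.asIdeal) (f.map (Ideal.Quotient.mk v.asIdeal)) m)

/-- good reduction -/
def Good (f : (𝓞 K)[X]) (d : ℕ) (v : HeightOneSpectrum (𝓞 K)) : Prop :=
  (2 : 𝓞 K) ∉ v.asIdeal ∧ (f.map (Ideal.Quotient.mk v.asIdeal)).natDegree = d ∧
    (f.map (Ideal.Quotient.mk v.asIdeal)).Separable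

theorem affineCount_eq (k : Type) [Field k] (g : k[X]) (m : ℕ) : affineCount k g m = affPts k g 1 m := by
  unfold affineCount affPts
  simp only [map_one, one_mul]

theorem infinityCount_eq (k : Type) [Field k] (g : k[X]) (m : ℕ) : infinityCount k g m = infPts k g 1 m := by
  unfold infinityCount infPts
  simp only [map_one, one_mul]

theorem trace_eq (f : (𝓞 K)[X]) (v : HeightOneSpectrum (𝓞 K)) (m : ℕ) :
    trace f v m = trv v (f.map (Ideal.Quotient.mk v.asIdeal)) m := by
  unfold trace trv trG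
  rw [affineCount_eq, infinityCount_eq]
  rfl

theorem hasWt_iff {R : Type} (Φ : MvPolynomial (Option (R × ℕ)) ℝ) (w : ℕ) :
    HasWt Φ w ↔ MvPolynomial.IsWeightedHomogeneous (wgt (R := R)) Φ w := by
  unfold HasWt MvPolynomial.IsWeightedHomogeneous
  constructor
  · intro h m hm
    have h1 := h m (MvPolynomial.mem_support_iff.2 hm)
    rw [← h1, Finsupp.weight_apply]
    rfl
  · intro h m hm
    have h1 := h (MvPolynomial.mem_support_iff.1 hm)
    rw [← h1, Finsupp.weight_apply]
    rfl

/-- weights for one curve -/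
def wgt1 : Option ℕ → ℕ
  | none => 2
  | some l => l + 1

/-- the variables for one curve -/
def emb : Option ℕ → Option (Unit × ℕ) := Option.map (Prod.mk ())

theorem emb_inj : Function.Injective emb := Option.map_injective (Prod.mk_right_injective ())

theorem hasWt_emb {Φ : MvPolynomial (Option ℕ) ℝ} {w : ℕ} (h : MvPolynomial.IsWeightedHomogeneous wgt1 Φ w) :
    HasWt (MvPolynomial.rename emb Φ) w := by
  intro m hm
  obtain ⟨u, hu1, hu2⟩ := MvPolynomial.coeff_rename_ne_zero _ _ _ (MvPolynomial.mem_support_iff.1 hm)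
  have h1 := h hu2
  rw [Finsupp.weight_apply] at h1
  rw [← hu1, Finsupp.sum_mapDomain_index (fun _ => by simp) (fun _ _ _ => by ring), ← h1]
  refine Finsupp.sum_congr fun x _ => ?_
  match x with
  | none => rfl
  | some l => rfl

section
variable {J : Type} [Fintype J] [DecidableEq J] {R : Type} [Fintype R] [DecidableEq R]

theorem oddMon_all {F : R → (MvPolynomial J (𝓞 K))[X]} {wt : J → ℕ} {a e : R → ℕ}
    (hs : ∀ i, IsScl (F i) wt (a i) (e i)) (he : ∀ i, Odd (e i)) {Φ : MvPolynomial (Option (R × ℕ)) ℝ} {w : ℕ}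
    (hw : HasWt Φ w) (hodd : Odd w) : ∀ m ∈ Φ.support, OddMon F m := by
  intro m hm
  refine ⟨wt, a, e, hs, ?_⟩
  have h1 := hw m hm
  rw [← h1] at hodd
  have h2 : (((m.sum fun x n => n * par e x : ℕ) : ZMod 2)) = ((m.sum fun x n => n * wgt x : ℕ) : ZMod 2) := by
    unfold Finsupp.sum
    push_cast
    refine Finset.sum_congr rfl fun x _ => ?_
    congr 1
    match x with
    | none =>
      change (((0 : ℕ) : ZMod 2)) = ((2 : ℕ) : ZMod 2)
      decide
    | some (i, l) =>
      change (((e i * (l + 1) : ℕ) : ZMod 2)) = ((l + 1 : ℕ) : ZMod 2)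
      have h3 : ((e i : ℕ) : ZMod 2) = 1 := (ZMod.natCast_eq_one_iff_odd).2 (he i)
      push_cast
      rw [h3, one_mul]
  rw [← ZMod.natCast_eq_one_iff_odd] at hodd ⊢
  rw [h2]
  exact hodd

/-- the local traces of a member -/
noncomputable def tH (Φ : MvPolynomial (Option (R × ℕ)) ℝ) (F : R → (MvPolynomial J (𝓞 K))[X]) (c : J → ℤ)
    (v : HeightOneSpectrum (𝓞 K)) (k : ℕ) : ℝ := chv Φ v (fun i => rmem (F i) v c) k

/-- the good places of a member -/
def gH (F : R → (MvPolynomial J (𝓞 K))[X]) (c : J → ℤ) (v : HeightOneSpectrum (𝓞 K)) : Prop :=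
  ∀ i, Gdv v (rmem (F i) v c) (F i).natDegree

theorem cmpH [Nonempty R] (w : ℕ) (Φ : MvPolynomial (Option (R × ℕ)) ℝ) (F : R → (MvPolynomial J (𝓞 K))[X]) :
    Cmp w 3 (TH Φ F) (BH F) (tH Φ F) (gH F) where
  bad := by
    intro p c _
    have : Fact (p : ℕ).Prime := ⟨p.2⟩
    rw [BH_iff]
    unfold gH
    constructor
    · rintro ⟨i, v, hv, hn⟩
      exact ⟨v, hv, fun h => hn (h i)⟩
    · rintro ⟨v, hv, hn⟩
      rw [not_forall] at hn
      obtain ⟨i, hi⟩ := hn
      exact ⟨i, v, hv, hi⟩
  val := by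
    intro p c k _ hb _
    have : Fact (p : ℕ).Prime := ⟨p.2⟩
    rw [TH_prime, if_neg hb, frobTrace_eq, tp_congr Φ F p (red_liftp (p : ℕ) (red (p : ℕ) c)) k]
    rfl
  small := by
    intro p c hp
    obtain ⟨v, hv⟩ := exists_above (K := K) p
    have hm := (mem_iff p v).mpr hv
    refine ⟨v, hm, fun h => ?_⟩
    have hp2 : (p : ℕ) = 2 := by
      have := p.2.two_le
      omega
    rw [hp2] at hm
    exact (h (Classical.arbitrary R)).1 (by exact_mod_cast hm)

end

end Pool.Agent.N534.HC.Inst
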