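import Mathlib
import Pool.Agent.Y722.HS.Sec

/-!
# Zeros of polynomials at residue classes
-/

set_option autoImplicit false

namespace Pool.Agent.N534.HC

open MvPolynomial Finset
open Pool.Agent.Y722.HS (EM EM_mono EM_const p_pos)

theorem sz {k : Type} [CommRing k] [IsDomain k] [DecidableEq k] {τ : Type} [Fintype τ] [DecidableEq τ]
    (p : ℕ) [Fact p.Prime] (φ : ZMod p → k) (hφ : Function.Injective φ) (P : MvPolynomial τ k) (hP : P ≠ 0) :
    (((Finset.univ.filter fun r : τ → ZMod p => eval (fun j => φ (r j)) P = 0).card : ℕ) : ℝ) * p ≤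
      P.totalDegree * (p : ℝ) ^ Fintype.card τ := by
  classical
  set e : τ ≃ Fin (Fintype.card τ) := Fintype.equivFin τ with he
  have hP' : rename e P ≠ 0 := by
    intro h
    apply hP
    apply rename_injective e e.injective
    rw [h, map_zero]
  set S : Finset k := Finset.univ.image φ with hS
  have hcS : S.card = p := by
    rw [hS, Finset.card_image_of_injective _ hφ, Finset.card_univ, ZMod.card]
  have h1 := schwartz_zippel_totalDegree hP' S
  have h0 : (rename e P).totalDegree = P.totalDegree := by
    have := totalDegree_rename_le e P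
    have h := totalDegree_rename_le e.symm (rename e P)
    rw [rename_rename, Equiv.symm_comp_self, rename_id] at h
    simp only [AlgHom.id_apply] at h
    omega
  rw [hcS, h0] at h1
  have h2 : (Finset.univ.filter fun r : τ → ZMod p => eval (fun j => φ (r j)) P = 0).card ≤
      #{f ∈ Fintype.piFinset fun _ : Fin (Fintype.card τ) => S | eval f (rename e P) = 0} := by
    refine Finset.card_le_card_of_injOn (fun r i => φ (r (e.symm i))) ?_ ?_
    · intro r hr
      rw [Finset.mem_coe, Finset.mem_filter] at hr ⊢
      refine ⟨?_, ?_⟩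
      · rw [Fintype.mem_piFinset]
        intro i
        exact Finset.mem_image_of_mem _ (Finset.mem_univ _)
      · rw [eval_rename]
        have h3 : ((fun i => φ (r (e.symm i))) ∘ e) = fun j => φ (r j) := by
          funext j
          simp
        rw [h3]
        exact hr.2
    · intro r _ r' _ h
      funext j
      have := congrFun h (e j)
      simp only [Equiv.symm_apply_apply] at this
      exact hφ this
  have hp0 : (0 : ℝ) < p := p_pos
  have h3 : ((#{f ∈ Fintype.piFinset fun _ : Fin (Fintype.card τ) => S | eval f (rename e P) = 0} : ℕ) : ℝ) /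
      (p : ℝ) ^ Fintype.card τ ≤ P.totalDegree / p := by
    have h4 : (((#{f ∈ Fintype.piFinset fun _ : Fin (Fintype.card τ) => S | eval f (rename e P) = 0} : ℕ) : ℚ≥0) /
      (p : ℚ≥0) ^ Fintype.card τ : ℚ≥0) ≤ ((P.totalDegree : ℚ≥0) / p : ℚ≥0) := h1
    have h5 := (NNRat.cast_le (K := ℝ)).mpr h4
    push_cast at h5
    exact h5
  rw [div_le_div_iff₀ (by positivity) hp0] at h3
  have h5 : (((Finset.univ.filter fun r : τ → ZMod p => eval (fun j => φ (r j)) P = 0).card : ℕ) : ℝ) ≤
      ((#{f ∈ Fintype.piFinset fun _ : Fin (Fintype.card τ) => S | eval f (rename e P) = 0} : ℕ) : ℝ) := by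
    exact_mod_cast h2
  calc _ ≤ ((#{f ∈ Fintype.piFinset fun _ : Fin (Fintype.card τ) => S | eval f (rename e P) = 0} : ℕ) : ℝ) * p := by
        gcongr
    _ ≤ _ := h3

theorem EM_sz {k : Type} [CommRing k] [IsDomain k] {τ : Type} [Fintype τ] [DecidableEq τ]
    (p : ℕ) [Fact p.Prime] (φ : ZMod p → k) (hφ : Function.Injective φ) (P : MvPolynomial τ k) (hP : P ≠ 0) :
    EM p (fun r : τ → ZMod p => open Classical in if eval (fun j => φ (r j)) P = 0 then (1 : ℝ) else 0) ≤
      P.totalDegree / p := by
  classical
  have h1 := sz p φ hφ P hP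
  have hp0 : (0 : ℝ) < p := p_pos
  unfold EM
  rw [Finset.sum_ite, Finset.sum_const_zero, add_zero, Finset.sum_const, nsmul_eq_mul, mul_one,
    div_le_div_iff₀ (by positivity) hp0]
  exact h1

end Pool.Agent.N534.HC
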