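import Pool.Agent.N534.HC.Tr
import Pool.Agent.N534.HC.SZ
import Pool.Agent.N534.AS.Asai

/-!
# Families of hyperelliptic curves over number fields: one prime
-/

set_option autoImplicit false
set_option linter.unusedSectionVars false

namespace Pool.Agent.N534.HC

open NumberField IsDedekindDomain Finset Polynomial
open Pool.Agent.H341R2
open Pool.Agent.H921R2.TatePole (nm two_le_nm below deg nm_eq below_le_nm fiber_card_le below_eq_of_mem)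
open Pool.Agent.H341R2.EC (mk_ne)
open Pool.Agent.Y722.HS (EM red EM_mono EM_const p_pos)
open Pool.Agent.N534.EC (nm_ge dK one_le_dK)
open Pool.Agent.N534.LL (liftp red_liftp)
open Pool.Agent.N534.AS (mkP)

variable {K : Type} [Field K] [NumberField K]

/-- the trace of the `m`-th power of Frobenius -/
noncomputable def trv (v : HeightOneSpectrum (𝓞 K)) (g : (𝓞 K ⧸ v.asIdeal)[X]) (m : ℕ) : ℤ :=
  trG (𝓞 K ⧸ v.asIdeal) g 1 m

/-- good reduction -/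
def Gdv (v : HeightOneSpectrum (𝓞 K)) (g : (𝓞 K ⧸ v.asIdeal)[X]) (d : ℕ) : Prop :=
  (2 : 𝓞 K) ∉ v.asIdeal ∧ g.natDegree = d ∧ g.Separable

theorem char_ne {v : HeightOneSpectrum (𝓞 K)} (h2 : (2 : 𝓞 K) ∉ v.asIdeal) :
    ringChar (𝓞 K ⧸ v.asIdeal) ≠ 2 := by
  intro h
  have h1 := mk_ne h2
  apply h1
  have := ringChar.Nat.cast_ringChar (R := 𝓞 K ⧸ v.asIdeal)
  rw [h] at this
  rw [map_ofNat]
  exact_mod_cast this

theorem natCard_v (v : HeightOneSpectrum (𝓞 K)) : Nat.card (𝓞 K ⧸ v.asIdeal) = nm v := rfl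

theorem trv_bound {v : HeightOneSpectrum (𝓞 K)} {g : (𝓞 K ⧸ v.asIdeal)[X]} {d : ℕ} (h : Gdv v g d) (hd : 1 ≤ d)
    {m : ℕ} (hm : m ≠ 0) : |(trv v g m : ℝ)| ≤ d * Real.sqrt ((nm v : ℝ) ^ m) := by
  have h1 := trG_bound (char_ne h.1) g (by rw [h.2.1]; exact hd) h.2.2 hm
  rw [h.2.1, natCard_v] at h1
  exact h1

section
variable (p : Nat.Primes) (v : HeightOneSpectrum (𝓞 K)) (hv : below v = p)
include hv

theorem p_mem : ((p : ℕ) : 𝓞 K) ∈ v.asIdeal := by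
  have := (nm_eq v).2.2
  rwa [hv] at this

theorem int_mem_iff (n : ℤ) : (n : 𝓞 K) ∈ v.asIdeal ↔ ((p : ℕ) : ℤ) ∣ n := by
  constructor
  · intro h
    by_contra hn
    have hcop : IsCoprime ((p : ℕ) : ℤ) n :=
      ((Nat.prime_iff_prime_int.mp p.2).coprime_iff_not_dvd).2 hn
    obtain ⟨a, b, hab⟩ := hcop
    apply v.isPrime.ne_top
    rw [Ideal.eq_top_iff_one]
    have h3 : (1 : 𝓞 K) = (a : 𝓞 K) * ((p : ℕ) : 𝓞 K) + (b : 𝓞 K) * (n : 𝓞 K) := by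
      have := congrArg (Int.cast : ℤ → 𝓞 K) hab
      push_cast at this
      exact this.symm
    rw [h3]
    exact v.asIdeal.add_mem (v.asIdeal.mul_mem_left _ (p_mem p v hv)) (v.asIdeal.mul_mem_left _ h)
  · rintro ⟨m, rfl⟩
    push_cast
    exact v.asIdeal.mul_mem_right _ (p_mem p v hv)

theorem mk_int_eq (a b : ℤ) (h : (a : ZMod (p : ℕ)) = b) :
    ((a : ℤ) : 𝓞 K ⧸ v.asIdeal) = ((b : ℤ) : 𝓞 K ⧸ v.asIdeal) := by
  have h1 : ((p : ℕ) : ℤ) ∣ a - b := by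
    rw [← ZMod.intCast_zmod_eq_zero_iff_dvd]
    push_cast
    rw [h, sub_self]
  have h2 := (int_mem_iff p v hv (a - b)).2 h1
  have h3 := Ideal.Quotient.eq_zero_iff_mem.2 h2
  rw [map_intCast] at h3
  push_cast at h3
  exact sub_eq_zero.1 h3

theorem mk_int_inj (a b : ℤ) (h : ((a : ℤ) : 𝓞 K ⧸ v.asIdeal) = ((b : ℤ) : 𝓞 K ⧸ v.asIdeal)) :
    (a : ZMod (p : ℕ)) = b := by
  have h1 : Ideal.Quotient.mk v.asIdeal ((a - b : ℤ) : 𝓞 K) = 0 := by
    rw [map_intCast]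
    push_cast
    rw [h, sub_self]
  have h2 := (int_mem_iff p v hv (a - b)).1 (Ideal.Quotient.eq_zero_iff_mem.1 h1)
  have h3 := (ZMod.intCast_zmod_eq_zero_iff_dvd (a - b) (p : ℕ)).2 h2
  push_cast at h3
  exact sub_eq_zero.1 h3

/-- a non-residue modulo `p` is a non-residue modulo a prime of degree one -/
theorem qc_deg_one [Fact (p : ℕ).Prime] (hp2 : (p : ℕ) ≠ 2) (h1 : deg v = 1) (G : ℤ)
    (hG : quadraticChar (ZMod (p : ℕ)) (G : ZMod (p : ℕ)) = -1) :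
    quadraticChar (𝓞 K ⧸ v.asIdeal) (G : 𝓞 K ⧸ v.asIdeal) = -1 := by
  have hG0 : (G : ZMod (p : ℕ)) ≠ 0 := by
    intro h
    rw [h] at hG
    simp at hG
  have hchar : CharP (𝓞 K ⧸ v.asIdeal) (p : ℕ) := by
    refine ⟨fun n => ?_⟩
    have e1 := int_mem_iff p v hv (n : ℤ)
    have e2 : ((n : ℕ) : 𝓞 K ⧸ v.asIdeal) = Ideal.Quotient.mk v.asIdeal ((n : ℤ) : 𝓞 K) := by
      rw [map_intCast]
      push_cast
      rfl
    rw [e2, Ideal.Quotient.eq_zero_iff_mem, e1]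
    exact Int.natCast_dvd_natCast
  let _ : Algebra (ZMod (p : ℕ)) (𝓞 K ⧸ v.asIdeal) := ZMod.algebra _ _
  have hcard : Nat.card (𝓞 K ⧸ v.asIdeal) = Nat.card (ZMod (p : ℕ)) ^ 1 := by
    rw [natCard_v, (nm_eq v).1, h1, hv, Nat.card_zmod]
  have hr : ringChar (ZMod (p : ℕ)) ≠ 2 := by
    rw [ZMod.ringChar_zmod_n]
    exact hp2
  have h2 := quadraticChar_ext (k := ZMod (p : ℕ)) hr (E := 𝓞 K ⧸ v.asIdeal) hcard (d := (G : ZMod (p : ℕ))) hG0
  rw [map_intCast, hG, pow_one] at h2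
  exact h2

end

/-! ### Members of a family -/

section
variable {J : Type}

/-- the member of the family with the parameter `c` -/
noncomputable def mem (F : (MvPolynomial J (𝓞 K))[X]) (c : J → ℤ) : (𝓞 K)[X] :=
  F.map (MvPolynomial.eval (fun j => ((c j : ℤ) : 𝓞 K)))

/-- its reduction -/
noncomputable def rmem (F : (MvPolynomial J (𝓞 K))[X]) (v : HeightOneSpectrum (𝓞 K)) (c : J → ℤ) :
    (𝓞 K ⧸ v.asIdeal)[X] := (mem F c).map (Ideal.Quotient.mk v.asIdeal)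

theorem mk_eval (P : MvPolynomial J (𝓞 K)) (v : HeightOneSpectrum (𝓞 K)) (c : J → ℤ) :
    Ideal.Quotient.mk v.asIdeal (MvPolynomial.eval (fun j => ((c j : ℤ) : 𝓞 K)) P) =
      MvPolynomial.eval (fun j => ((c j : ℤ) : 𝓞 K ⧸ v.asIdeal)) (P.map (Ideal.Quotient.mk v.asIdeal)) := by
  rw [MvPolynomial.eval_map, ← MvPolynomial.eval₂_id (p := P)]
  rw [MvPolynomial.eval₂_comp_left (Ideal.Quotient.mk v.asIdeal) (RingHom.id _)]
  congr 1

theorem rmem_congr (F : (MvPolynomial J (𝓞 K))[X]) (p : Nat.Primes) (v : HeightOneSpectrum (𝓞 K))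
    (hv : below v = p) {c c' : J → ℤ} (h : red (p : ℕ) c = red (p : ℕ) c') : rmem F v c = rmem F v c' := by
  unfold rmem mem
  rw [Polynomial.map_map, Polynomial.map_map]
  congr 1
  apply RingHom.ext
  intro P
  rw [RingHom.comp_apply, RingHom.comp_apply, mk_eval, mk_eval]
  have h1 : (fun j => ((c j : ℤ) : 𝓞 K ⧸ v.asIdeal)) = fun j => ((c' j : ℤ) : 𝓞 K ⧸ v.asIdeal) := by
    funext j
    exact mk_int_eq p v hv _ _ (congrFun h j)
  rw [h1]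

/-- scaled parameters -/
def scl (wt : J → ℕ) (G : ℤ) (c : J → ℤ) : J → ℤ := fun j => G ^ wt j * c j

/-- a scaling of the family: the member at the scaled parameter is a twist -/
def IsScl (F : (MvPolynomial J (𝓞 K))[X]) (wt : J → ℕ) (a e : ℕ) : Prop :=
  ∀ (G : ℤ) (c : J → ℤ), (mem F (scl wt G c)).comp (C ((G : 𝓞 K) ^ a) * X) = C ((G : 𝓞 K) ^ e) * mem F c

theorem rmem_scl {F : (MvPolynomial J (𝓞 K))[X]} {wt : J → ℕ} {a e : ℕ} (h : IsScl F wt a e)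
    (v : HeightOneSpectrum (𝓞 K)) (G : ℤ) (c : J → ℤ) :
    (rmem F v (scl wt G c)).comp (C ((G : 𝓞 K ⧸ v.asIdeal) ^ a) * X) =
      C ((G : 𝓞 K ⧸ v.asIdeal) ^ e) * rmem F v c := by
  have h1 := congrArg (Polynomial.map (Ideal.Quotient.mk v.asIdeal)) (h G c)
  have e1 : ∀ n : ℕ, Ideal.Quotient.mk v.asIdeal ((G : 𝓞 K) ^ n) = (G : 𝓞 K ⧸ v.asIdeal) ^ n := by
    intro n
    rw [map_pow, map_intCast]
  rw [Polynomial.map_comp, Polynomial.map_mul, Polynomial.map_mul, Polynomial.map_C, Polynomial.map_C,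
    Polynomial.map_X, e1, e1] at h1
  exact h1

theorem trv_scl {F : (MvPolynomial J (𝓞 K))[X]} {wt : J → ℕ} {a e : ℕ} (h : IsScl F wt a e)
    {v : HeightOneSpectrum (𝓞 K)} (h2 : (2 : 𝓞 K) ∉ v.asIdeal) (G : ℤ)
    (hG : quadraticChar (𝓞 K ⧸ v.asIdeal) (G : 𝓞 K ⧸ v.asIdeal) = -1) (c : J → ℤ) {m : ℕ} (hm : m ≠ 0) :
    trv v (rmem F v (scl wt G c)) m = (-1) ^ (e * m) * trv v (rmem F v c) m := by
  have hG0 : (G : 𝓞 K ⧸ v.asIdeal) ≠ 0 := by
    intro h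
    rw [h] at hG
    simp at hG
  have h1 := trG_scale (char_ne h2) (pow_ne_zero a hG0) (pow_ne_zero e hG0) (rmem_scl h v G c) hm
  rw [map_pow, hG, ← pow_mul] at h1
  exact h1

theorem Gdv_scl {F : (MvPolynomial J (𝓞 K))[X]} {wt : J → ℕ} {a e : ℕ} (h : IsScl F wt a e)
    (v : HeightOneSpectrum (𝓞 K)) (G : ℤ) (hG0 : (G : 𝓞 K ⧸ v.asIdeal) ≠ 0) (c : J → ℤ) (d : ℕ) :
    Gdv v (rmem F v (scl wt G c)) d ↔ Gdv v (rmem F v c) d := by
  have h1 := sep_scale (pow_ne_zero a hG0) (pow_ne_zero e hG0) (rmem_scl h v G c)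
  unfold Gdv
  rw [h1.1, h1.2]

end

end Pool.Agent.N534.HC
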