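import Pool.Agent.N534.HC.Bad

/-!
# Characters of representations of odd degree in families of hyperelliptic curves
-/

set_option autoImplicit false
set_option linter.unusedSectionVars false

namespace Pool.Agent.N534.HC

open NumberField IsDedekindDomain Finset Polynomial
open Pool.Agent.H341R2
open Pool.Agent.H921R2.TatePole (nm two_le_nm below deg nm_eq below_le_nm fiber_card_le below_eq_of_mem)
open Pool.Agent.H341R2.EC (mk_ne)
open Pool.Agent.Y722.HS (EM red EM_mono EM_const p_pos)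
open Pool.Agent.N534.EC
open Pool.Agent.N534.LL (liftp red_liftp)
open Pool.Agent.N534.AS
open Pool.Agent.N534.PS (Pow lamT trm)

variable {K : Type} [Field K] [NumberField K] {J : Type} [Fintype J] [DecidableEq J]
  {R : Type} [Fintype R] [DecidableEq R]

/-- the weights of the variables -/
def wgt : Option (R × ℕ) → ℕ
  | none => 2
  | some x => x.2 + 1

/-- the sign exponents of the variables -/
def par (e : R → ℕ) : Option (R × ℕ) → ℕ
  | none => 0
  | some x => e x.1 * (x.2 + 1)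

/-- the values of the variables at `v`: power sums of the Frobenius eigenvalues, and the norm -/
noncomputable def vals (v : HeightOneSpectrum (𝓞 K)) (g : R → (𝓞 K ⧸ v.asIdeal)[X]) (k : ℕ) : Option (R × ℕ) → ℝ
  | none => (nm v : ℝ) ^ k
  | some x => (trv v (g x.1) (k * (x.2 + 1)) : ℝ)

theorem vals_le (v : HeightOneSpectrum (𝓞 K)) (g : R → (𝓞 K ⧸ v.asIdeal)[X]) (d : R → ℕ)
    (hg : ∀ i, Gdv v (g i) (d i)) (hd : ∀ i, 1 ≤ d i) (k : ℕ) (hk : k ≠ 0) (x : Option (R × ℕ)) :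
    |vals v g k x| ≤ (1 + ∑ i, (d i : ℝ)) * Real.sqrt ((nm v : ℝ) ^ k) ^ wgt x := by
  have hnm : (0 : ℝ) ≤ (nm v : ℝ) ^ k := by positivity
  have hS : (0 : ℝ) ≤ ∑ i, (d i : ℝ) := by positivity
  match x with
  | none =>
    change |(nm v : ℝ) ^ k| ≤ _ * Real.sqrt ((nm v : ℝ) ^ k) ^ 2
    rw [Real.sq_sqrt hnm, abs_of_nonneg hnm]
    nlinarith
  | some (i, l) =>
    change |(trv v (g i) (k * (l + 1)) : ℝ)| ≤ _ * Real.sqrt ((nm v : ℝ) ^ k) ^ (l + 1)
    have h1 := trv_bound (hg i) (hd i) (m := k * (l + 1)) (Nat.mul_ne_zero hk (Nat.succ_ne_zero l))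
    have h2 : Real.sqrt ((nm v : ℝ) ^ (k * (l + 1))) = Real.sqrt ((nm v : ℝ) ^ k) ^ (l + 1) := by
      rw [pow_mul, Real.sqrt_eq_iff_mul_self_eq (by positivity) (by positivity), ← mul_pow,
        Real.mul_self_sqrt hnm]
    rw [h2] at h1
    refine h1.trans ?_
    have h3 : (d i : ℝ) ≤ 1 + ∑ i, (d i : ℝ) := by
      have := Finset.single_le_sum (s := Finset.univ) (f := fun i => (d i : ℝ)) (fun i _ => by positivity)
        (Finset.mem_univ i)
      linarith
    gcongr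

/-- the value of a monomial -/
noncomputable def mon (v : HeightOneSpectrum (𝓞 K)) (g : R → (𝓞 K ⧸ v.asIdeal)[X]) (k : ℕ)
    (m : Option (R × ℕ) →₀ ℕ) : ℝ := m.prod fun x n => vals v g k x ^ n

theorem mon_le (v : HeightOneSpectrum (𝓞 K)) (g : R → (𝓞 K ⧸ v.asIdeal)[X]) (d : R → ℕ)
    (hg : ∀ i, Gdv v (g i) (d i)) (hd : ∀ i, 1 ≤ d i) (k : ℕ) (hk : k ≠ 0) (m : Option (R × ℕ) →₀ ℕ) :
    |mon v g k m| ≤ (1 + ∑ i, (d i : ℝ)) ^ (m.sum fun _ n => n) *
      Real.sqrt ((nm v : ℝ) ^ k) ^ (m.sum fun x n => n * wgt x) := by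
  unfold mon
  rw [Finsupp.prod, Finset.abs_prod, Finsupp.sum, Finsupp.sum, ← Finset.prod_pow_eq_pow_sum,
    ← Finset.prod_pow_eq_pow_sum, ← Finset.prod_mul_distrib]
  refine Finset.prod_le_prod (fun _ _ => abs_nonneg _) fun x _ => ?_
  rw [abs_pow]
  have h1 := vals_le v g d hg hd k hk x
  calc _ ≤ ((1 + ∑ i, (d i : ℝ)) * Real.sqrt ((nm v : ℝ) ^ k) ^ wgt x) ^ m x := by gcongr
    _ = _ := by rw [mul_pow, ← pow_mul, mul_comm (wgt x)]

/-- the value of the character -/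
noncomputable def chv (Φ : MvPolynomial (Option (R × ℕ)) ℝ) (v : HeightOneSpectrum (𝓞 K))
    (g : R → (𝓞 K ⧸ v.asIdeal)[X]) (k : ℕ) : ℝ := MvPolynomial.eval (vals v g k) Φ

theorem chv_eq (Φ : MvPolynomial (Option (R × ℕ)) ℝ) (v : HeightOneSpectrum (𝓞 K))
    (g : R → (𝓞 K ⧸ v.asIdeal)[X]) (k : ℕ) :
    chv Φ v g k = ∑ m ∈ Φ.support, Φ.coeff m * mon v g k m := by
  unfold chv mon
  rw [MvPolynomial.eval_eq]
  rfl

/-- a bound for the character -/
noncomputable def CΦ (d : R → ℕ) (Φ : MvPolynomial (Option (R × ℕ)) ℝ) : ℝ :=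
  ∑ m ∈ Φ.support, |Φ.coeff m| * (1 + ∑ i, (d i : ℝ)) ^ (m.sum fun _ n => n)

theorem CΦ_nonneg (d : R → ℕ) (Φ : MvPolynomial (Option (R × ℕ)) ℝ) : 0 ≤ CΦ d Φ := by
  unfold CΦ
  positivity

/-- the weight of the character -/
def HasWt (Φ : MvPolynomial (Option (R × ℕ)) ℝ) (w : ℕ) : Prop :=
  ∀ m ∈ Φ.support, (m.sum fun x n => n * wgt x) = w

theorem chv_le (Φ : MvPolynomial (Option (R × ℕ)) ℝ) {w : ℕ} (hw : HasWt Φ w) (v : HeightOneSpectrum (𝓞 K))
    (g : R → (𝓞 K ⧸ v.asIdeal)[X]) (d : R → ℕ)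
    (hg : ∀ i, Gdv v (g i) (d i)) (hd : ∀ i, 1 ≤ d i) (k : ℕ) (hk : k ≠ 0) :
    |chv Φ v g k| ≤ CΦ d Φ * Real.sqrt ((nm v : ℝ) ^ k) ^ w := by
  rw [chv_eq]
  refine (Finset.abs_sum_le_sum_abs _ _).trans ?_
  unfold CΦ
  rw [Finset.sum_mul]
  refine Finset.sum_le_sum fun m hm => ?_
  rw [abs_mul, mul_assoc]
  have h1 := mon_le v g d hg hd k hk m
  rw [hw m hm] at h1
  exact mul_le_mul_of_nonneg_left h1 (abs_nonneg _)

/-! ### The sum over the primes above `p` -/

open Classical in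
/-- the trace of the `k`-th power of Frobenius at `p` -/
noncomputable def tp (Φ : MvPolynomial (Option (R × ℕ)) ℝ) (F : R → (MvPolynomial J (𝓞 K))[X]) (c : J → ℤ)
    (p : Nat.Primes) (k : ℕ) : ℝ :=
  ∑ v : {v : HeightOneSpectrum (𝓞 K) // below v = p}, if deg v.1 ∣ k then
    (deg v.1 : ℝ) * chv Φ v.1 (fun i => rmem (F i) v.1 c) (k / deg v.1) else 0

theorem sqrt_nm_pow (p : Nat.Primes) (v : {v : HeightOneSpectrum (𝓞 K) // below v = p}) (k w : ℕ) (hk : deg v.1 ∣ k) :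
    Real.sqrt ((nm v.1 : ℝ) ^ (k / deg v.1)) ^ w = ((p : ℕ) : ℝ) ^ ((k : ℝ) * ((w : ℝ) / 2)) := by
  have hp0 : (0 : ℝ) < (p : ℕ) := by exact_mod_cast p.2.pos
  obtain ⟨n, hn⟩ := hk
  have hdeg := (nm_eq v.1).2.1
  have h5 : k / deg v.1 = n := by rw [hn, Nat.mul_div_cancel_left _ hdeg]
  have h6 : (nm v.1 : ℝ) = ((p : ℕ) : ℝ) ^ deg v.1 := by
    have := (nm_eq v.1).1
    rw [v.2] at this
    exact_mod_cast this
  rw [h5, h6, Real.sqrt_eq_rpow, ← Real.rpow_natCast, ← Real.rpow_natCast, ← Real.rpow_natCast,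
    ← Real.rpow_mul hp0.le, ← Real.rpow_mul hp0.le, ← Real.rpow_mul hp0.le]
  congr 1
  rw [hn]
  push_cast
  ring

theorem tp_le (Φ : MvPolynomial (Option (R × ℕ)) ℝ) {w : ℕ} (hw : HasWt Φ w) (F : R → (MvPolynomial J (𝓞 K))[X])
    (hF : ∀ i, Adm (F i)) (c : J → ℤ) (p : Nat.Primes)
    (hg : ∀ (v : {v : HeightOneSpectrum (𝓞 K) // below v = p}) (i : R), Gdv v.1 (rmem (F i) v.1 c) (F i).natDegree)
    (k : ℕ) (hk : 1 ≤ k) :
    |tp Φ F c p k| ≤ dK K * CΦ (fun i => (F i).natDegree) Φ * ((p : ℕ) : ℝ) ^ ((k : ℝ) * ((w : ℝ) / 2)) := by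
  classical
  set X0 : ℝ := ((p : ℕ) : ℝ) ^ ((k : ℝ) * ((w : ℝ) / 2)) with hX
  have hX0 : 0 ≤ X0 := by positivity
  have hC := CΦ_nonneg (fun i => (F i).natDegree) Φ
  unfold tp
  refine (Finset.abs_sum_le_sum_abs _ _).trans ?_
  have h1 : ∀ v : {v : HeightOneSpectrum (𝓞 K) // below v = p},
      |if deg v.1 ∣ k then (deg v.1 : ℝ) * chv Φ v.1 (fun i => rmem (F i) v.1 c) (k / deg v.1) else 0| ≤
        (deg v.1 : ℝ) * (CΦ (fun i => (F i).natDegree) Φ * X0) := by
    intro v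
    split_ifs with hdk
    · rw [abs_mul, Nat.abs_cast]
      have hk0 : k / deg v.1 ≠ 0 := by
        obtain ⟨n, hn⟩ := hdk
        rw [hn, Nat.mul_div_cancel_left _ (nm_eq v.1).2.1]
        rintro rfl
        omega
      have h2 := chv_le Φ hw v.1 (fun i => rmem (F i) v.1 c) (fun i => (F i).natDegree) (hg v) (fun i => (hF i).pos)
        (k / deg v.1) hk0
      rw [sqrt_nm_pow p v k w hdk, ← hX] at h2
      exact mul_le_mul_of_nonneg_left h2 (by positivity)
    · rw [abs_zero]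
      positivity
  refine (Finset.sum_le_sum fun v _ => h1 v).trans ?_
  rw [← Finset.sum_mul]
  have h2 : ∑ v : {v : HeightOneSpectrum (𝓞 K) // below v = p}, (deg v.1 : ℝ) ≤ dK K := by
    unfold dK
    have := sum_deg_le (K := K) p
    exact_mod_cast this
  calc _ ≤ dK K * (CΦ (fun i => (F i).natDegree) Φ * X0) := mul_le_mul_of_nonneg_right h2 (by positivity)
    _ = _ := by ring

theorem tp_congr (Φ : MvPolynomial (Option (R × ℕ)) ℝ) (F : R → (MvPolynomial J (𝓞 K))[X]) {c c' : J → ℤ}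
    (p : Nat.Primes) (h : red (p : ℕ) c = red (p : ℕ) c') (k : ℕ) : tp Φ F c p k = tp Φ F c' p k := by
  unfold tp
  refine Finset.sum_congr rfl fun v _ => ?_
  have h1 : (fun i => rmem (F i) v.1 c) = fun i => rmem (F i) v.1 c' := by
    funext i
    exact rmem_congr (F i) p v.1 v.2 h
  rw [h1]

theorem BH_iff (F : R → (MvPolynomial J (𝓞 K))[X]) (p : Nat.Primes) [Fact (p : ℕ).Prime] (c : J → ℤ) :
    BH F (p : ℕ) (red (p : ℕ) c) ↔ ∃ (i : R) (v : HeightOneSpectrum (𝓞 K)),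
      ((p : ℕ) : 𝓞 K) ∈ v.asIdeal ∧ ¬ Gdv v (rmem (F i) v c) (F i).natDegree := by
  unfold BH
  refine exists_congr fun i => exists_congr fun v => and_congr_right fun hv => ?_
  rw [rmem_congr (F i) p v (below_eq_of_mem hv) (red_liftp (p : ℕ) (red (p : ℕ) c))]

open Classical in
/-- the power sums as functions of the residue classes; zero on the exceptional classes -/
noncomputable def TH (Φ : MvPolynomial (Option (R × ℕ)) ℝ) (F : R → (MvPolynomial J (𝓞 K))[X]) (p k : ℕ)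
    (r : J → ZMod p) : ℝ :=
  if h : p.Prime then (if BH F p r then 0 else tp Φ F (liftp r) (mkP p h) k) else 0

theorem TH_prime (Φ : MvPolynomial (Option (R × ℕ)) ℝ) (F : R → (MvPolynomial J (𝓞 K))[X]) (p : Nat.Primes) (k : ℕ)
    (r : J → ZMod (p : ℕ)) :
    TH Φ F (p : ℕ) k r = open Classical in if BH F (p : ℕ) r then 0 else tp Φ F (liftp r) p k := by
  unfold TH
  rw [dif_pos p.2]
  rfl

/-! ### The mean -/

/-- the monomial is odd for some scaling of the family -/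
def OddMon (F : R → (MvPolynomial J (𝓞 K))[X]) (m : Option (R × ℕ) →₀ ℕ) : Prop :=
  ∃ (wt : J → ℕ) (a e : R → ℕ), (∀ i, IsScl (F i) wt (a i) (e i)) ∧ Odd (m.sum fun x n => n * par e x)

/-- the permutation of the residue classes -/
def sclR {p : ℕ} (wt : J → ℕ) (G : ℤ) (r : J → ZMod p) : J → ZMod p := fun j => (G : ZMod p) ^ wt j * r j

theorem red_sclR (p : ℕ) [NeZero p] (wt : J → ℕ) (G : ℤ) (r : J → ZMod p) :
    red p (liftp (sclR wt G r)) = red p (scl wt G (liftp r)) := by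
  rw [red_liftp]
  funext j
  simp [red, scl, liftp, sclR]

theorem EM_perm {p : ℕ} [Fact p.Prime] (wt : J → ℕ) (G : ℤ) (hG : (G : ZMod p) ≠ 0) (f : (J → ZMod p) → ℝ) :
    EM p (fun r => f (sclR wt G r)) = EM p f := by
  unfold EM
  congr 1
  refine Fintype.sum_bijective (sclR wt G) ?_ _ _ fun r => rfl
  rw [Fintype.bijective_iff_injective_and_card]
  refine ⟨fun r r' h => ?_, rfl⟩
  funext j
  exact mul_left_cancel₀ (pow_ne_zero _ hG) (congrFun h j)

/-- the sum of a monomial over the primes of degree one -/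
noncomputable def Qm (F : R → (MvPolynomial J (𝓞 K))[X]) (m : Option (R × ℕ) →₀ ℕ) (p : Nat.Primes)
    (r : J → ZMod (p : ℕ)) : ℝ := open Classical in
  if BH F (p : ℕ) r then 0 else ∑ v : {v : HeightOneSpectrum (𝓞 K) // below v = p},
    if deg v.1 = 1 then mon v.1 (fun i => rmem (F i) v.1 (liftp r)) 1 m else 0

theorem TH_one (Φ : MvPolynomial (Option (R × ℕ)) ℝ) (F : R → (MvPolynomial J (𝓞 K))[X]) (p : Nat.Primes)
    (r : J → ZMod (p : ℕ)) : TH Φ F (p : ℕ) 1 r = ∑ m ∈ Φ.support, Φ.coeff m * Qm F m p r := by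
  classical
  rw [TH_prime]
  unfold Qm
  by_cases hb : BH F (p : ℕ) r
  · rw [if_pos hb]
    simp only [if_pos hb, mul_zero, Finset.sum_const_zero]
  · rw [if_neg hb]
    simp only [if_neg hb]
    unfold tp
    simp only [Finset.mul_sum]
    rw [Finset.sum_comm]
    refine Finset.sum_congr rfl fun v _ => ?_
    by_cases h : deg v.1 = 1
    · rw [h, if_pos (one_dvd 1), Nat.cast_one, one_mul, Nat.div_one, chv_eq]
      simp
    · rw [if_neg (fun h2 => h (Nat.dvd_one.mp h2))]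
      simp [h]

theorem mon_scl (F : R → (MvPolynomial J (𝓞 K))[X]) {wt : J → ℕ} {a e : R → ℕ}
    (hs : ∀ i, IsScl (F i) wt (a i) (e i)) (m : Option (R × ℕ) →₀ ℕ) (hm : Odd (m.sum fun x n => n * par e x))
    (v : HeightOneSpectrum (𝓞 K)) (h2 : (2 : 𝓞 K) ∉ v.asIdeal) (G : ℤ)
    (hG : quadraticChar (𝓞 K ⧸ v.asIdeal) (G : 𝓞 K ⧸ v.asIdeal) = -1) (c : J → ℤ) :
    mon v (fun i => rmem (F i) v (scl wt G c)) 1 m = -mon v (fun i => rmem (F i) v c) 1 m := by
  have h1 : ∀ x : Option (R × ℕ), vals v (fun i => rmem (F i) v (scl wt G c)) 1 x =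
      (-1) ^ par e x * vals v (fun i => rmem (F i) v c) 1 x := by
    intro x
    match x with
    | none => simp [vals, par]
    | some (i, l) =>
      change (trv v (rmem (F i) v (scl wt G c)) (1 * (l + 1)) : ℝ) =
        (-1) ^ (e i * (l + 1)) * (trv v (rmem (F i) v c) (1 * (l + 1)) : ℝ)
      rw [trv_scl (hs i) h2 G hG c (by omega)]
      push_cast
      rw [one_mul]
  unfold mon
  simp only [h1, mul_pow, ← pow_mul]
  rw [Finsupp.prod_mul]
  have h3 : (m.prod fun x n => ((-1 : ℝ)) ^ (par e x * n)) = -1 := by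
    rw [Finsupp.prod, Finset.prod_pow_eq_pow_sum]
    have h4 : ∑ x ∈ m.support, par e x * m x = m.sum fun x n => n * par e x := by
      rw [Finsupp.sum]
      exact Finset.sum_congr rfl fun x _ => mul_comm _ _
    rw [h4]
    exact hm.neg_one_pow
  rw [h3]
  ring

theorem exists_nonres (p : ℕ) [Fact p.Prime] (hp : p ≠ 2) : ∃ G : ℤ, quadraticChar (ZMod p) (G : ZMod p) = -1 := by
  have hr : ringChar (ZMod p) ≠ 2 := by
    rw [ZMod.ringChar_zmod_n]
    exact hp
  obtain ⟨a, ha⟩ := quadraticChar_exists_neg_one hr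
  obtain ⟨G, hG⟩ := ZMod.intCast_surjective a
  exact ⟨G, by rw [hG]; exact ha⟩

theorem mean_Qm (F : R → (MvPolynomial J (𝓞 K))[X]) (m : Option (R × ℕ) →₀ ℕ) (hm : OddMon F m) (p : Nat.Primes)
    [hp : Fact (p : ℕ).Prime] (h3 : 3 ≤ (p : ℕ)) : EM (p : ℕ) (Qm F m p) = 0 := by
  classical
  obtain ⟨wt, a, e, hs, hodd⟩ := hm
  have hp2 : (p : ℕ) ≠ 2 := by omega
  obtain ⟨G, hG⟩ := exists_nonres (p : ℕ) hp2
  have hG0 : (G : ZMod (p : ℕ)) ≠ 0 := by
    intro h
    rw [h] at hG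
    simp at hG
  have h1 := EM_perm wt G hG0 (Qm F m p)
  have h2 : ∀ r : J → ZMod (p : ℕ), Qm F m p (sclR wt G r) = -Qm F m p r := by
    intro r
    have hred := red_sclR (p : ℕ) wt G r
    have hkey : ∀ (v : HeightOneSpectrum (𝓞 K)) (hv : below v = p) (i : R),
        rmem (F i) v (liftp (sclR wt G r)) = rmem (F i) v (scl wt G (liftp r)) :=
      fun v hv i => rmem_congr (F i) p v hv hred
    have hG1 : ∀ (v : HeightOneSpectrum (𝓞 K)) (hv : below v = p), (G : 𝓞 K ⧸ v.asIdeal) ≠ 0 := by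
      intro v hv h
      apply hG0
      have := mk_int_inj p v hv G 0 (by rw [h]; simp)
      simpa using this
    have hB : BH F (p : ℕ) (sclR wt G r) ↔ BH F (p : ℕ) r := by
      unfold BH
      refine exists_congr fun i => exists_congr fun v => and_congr_right fun hv => ?_
      have hv' : below v = p := below_eq_of_mem hv
      rw [hkey v hv' i, Gdv_scl (hs i) v G (hG1 v hv')]
    unfold Qm
    by_cases hb : BH F (p : ℕ) r
    · rw [if_pos hb, if_pos (hB.2 hb), neg_zero]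
    · rw [if_neg hb, if_neg (fun h => hb (hB.1 h)), ← Finset.sum_neg_distrib]
      refine Finset.sum_congr rfl fun v _ => ?_
      by_cases hd : deg v.1 = 1
      · rw [if_pos hd, if_pos hd]
        have e1 : (fun i => rmem (F i) v.1 (liftp (sclR wt G r))) = fun i => rmem (F i) v.1 (scl wt G (liftp r)) := by
          funext i
          exact hkey v.1 v.2 i
        rw [e1]
        apply mon_scl F hs m hodd v.1 _ G (qc_deg_one p v.1 v.2 hp2 hd G hG)
        intro h2m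
        have h4 := (int_mem_iff p v.1 v.2 2).1 (by exact_mod_cast h2m)
        have h5 : (p : ℕ) ∣ 2 := by exact_mod_cast h4
        have := Nat.le_of_dvd (by norm_num) h5
        omega
      · rw [if_neg hd, if_neg hd, neg_zero]
  have h4 : EM (p : ℕ) (fun r => Qm F m p (sclR wt G r)) = -EM (p : ℕ) (Qm F m p) := by
    unfold EM
    simp only [h2]
    rw [Finset.sum_neg_distrib, neg_div]
  rw [h4] at h1
  linarith

theorem mean_TH (Φ : MvPolynomial (Option (R × ℕ)) ℝ) (F : R → (MvPolynomial J (𝓞 K))[X])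
    (hΦ : ∀ m ∈ Φ.support, OddMon F m) (p : Nat.Primes) [hp : Fact (p : ℕ).Prime] (h3 : 3 ≤ (p : ℕ)) :
    EM (p : ℕ) (TH Φ F (p : ℕ) 1) = 0 := by
  classical
  have h1 : TH Φ F (p : ℕ) 1 = fun r => ∑ m ∈ Φ.support, Φ.coeff m * Qm F m p r := by
    funext r
    exact TH_one Φ F p r
  rw [h1, EM_sum']
  refine Finset.sum_eq_zero fun m hm => ?_
  rw [Pool.Agent.Y722.LS.EM_mul, mean_Qm F m (hΦ m hm) p h3, mul_zero]

/-- **The power sums.** -/
theorem powH [Nonempty R] {Φ : MvPolynomial (Option (R × ℕ)) ℝ} {w : ℕ} (hw : HasWt Φ w)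
    {F : R → (MvPolynomial J (𝓞 K))[X]} (hF : ∀ i, Adm (F i)) (hΦ : ∀ m ∈ Φ.support, OddMon F m) :
    ∃ D : ℝ, Pow D w 3 (TH Φ F) (BH F) := by
  classical
  obtain ⟨D0, hD0, hbad⟩ := bad_all F hF
  have hC := CΦ_nonneg (fun i => (F i).natDegree) Φ
  have hdK := one_le_dK (K := K)
  set D := D0 + dK K * CΦ (fun i => (F i).natDegree) Φ with hD
  have hD1 : 0 ≤ dK K * CΦ (fun i => (F i).natDegree) Φ := by positivity
  have key : ∀ (p : Nat.Primes) (k : ℕ), 1 ≤ k → ∀ r : J → ZMod (p : ℕ),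
      |TH Φ F (p : ℕ) k r| ≤ D * ((p : ℕ) : ℝ) ^ ((k : ℝ) * ((w : ℝ) / 2)) := by
    intro p k hk r
    rw [TH_prime]
    split_ifs with hb
    · rw [abs_zero]
      positivity
    · have hg : ∀ (v : {v : HeightOneSpectrum (𝓞 K) // below v = p}) (i : R),
          Gdv v.1 (rmem (F i) v.1 (liftp r)) (F i).natDegree := by
        intro v i
        by_contra hn
        exact hb ⟨i, v.1, p_mem p v.1 v.2, hn⟩
      refine (tp_le Φ hw F hF (liftp r) p hg k hk).trans ?_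
      gcongr
      rw [hD]
      linarith
  refine ⟨D, ?_, ?_, ?_, ?_, ?_⟩
  · rw [hD]; linarith
  · intro p hp _ k hk r _
    exact key (mkP p hp.out) k hk r
  · intro p hp _ r
    have h1 := key (mkP p hp.out) 1 le_rfl r
    rw [Nat.cast_one, one_mul] at h1
    exact h1
  · intro p hp h3
    have hfp : Fact ((mkP p hp.out : Nat.Primes) : ℕ).Prime := hp
    have h1 : EM p (TH Φ F p 1) = 0 := mean_TH Φ F hΦ (mkP p hp.out) h3
    rw [h1, abs_zero]
    positivity
  · intro p hp _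
    have hfp : Fact ((mkP p hp.out : Nat.Primes) : ℕ).Prime := hp
    have h1 : EM p (fun r : J → ZMod p => if BH F p r then (1 : ℝ) else 0) ≤ D0 / p := hbad (mkP p hp.out)
    refine h1.trans ?_
    gcongr
    rw [hD]
    linarith

end Pool.Agent.N534.HC
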