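import Pool.Agent.H126T.Field

/-!
# Traces of Frobenius of hyperelliptic curves over finite fields

The first part follows `Pool.Agent.W529.ST.Hyp` (library).
-/

set_option autoImplicit false
set_option linter.unusedSectionVars false

namespace Pool.Agent.N534.HC

open Polynomial Pool.Agent.H126T Pool.Agent.H341R2

/-- points at infinity -/
noncomputable def infPts (k : Type) [Field k] (f : k[X]) (d : k) (m : ℕ) : ℕ :=
  if Odd f.natDegree then 1 else
    Nat.card {y : AlgebraicClosure k // y ^ (Nat.card k ^ m) = y ∧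
      algebraMap k (AlgebraicClosure k) d * y ^ 2 = algebraMap k (AlgebraicClosure k) f.leadingCoeff}

/-- the trace of the `m`-th power of Frobenius on `H¹` -/
noncomputable def trG (k : Type) [Field k] (f : k[X]) (d : k) (m : ℕ) : ℤ :=
  (Nat.card k : ℤ) ^ m + 1 - (affPts k f d m + infPts k f d m)

section
variable {k : Type} [Field k] [Finite k]

theorem infPts_eq (a d : k) (m : ℕ) (E : Type) [Field E] [Finite E] [Algebra k E]
    (hE : Nat.card E = Nat.card k ^ m) :
    Nat.card {y : AlgebraicClosure k // y ^ (Nat.card k ^ m) = y ∧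
      algebraMap k (AlgebraicClosure k) d * y ^ 2 = algebraMap k (AlgebraicClosure k) a} =
    Nat.card {y : E // algebraMap k E d * y ^ 2 = algebraMap k E a} := by
  classical
  have : Module.Finite k E := Module.Finite.of_finite
  have : Algebra.IsAlgebraic k E := Algebra.IsAlgebraic.of_finite k E
  let g : E →ₐ[k] AlgebraicClosure k := IsAlgClosed.lift
  let _ : Algebra E (AlgebraicClosure k) := g.toRingHom.toAlgebra
  let _ := Fintype.ofFinite E
  have hg : ∀ x : E, algebraMap E (AlgebraicClosure k) x = g x := fun x => rfl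
  have hfix : ∀ x : E, g x ^ (Nat.card k ^ m) = g x := by
    intro x
    rw [← map_pow, ← hE, Nat.card_eq_fintype_card, FiniteField.pow_card]
  refine (Nat.card_congr (Equiv.ofBijective (fun P : {y : E //
    algebraMap k E d * y ^ 2 = algebraMap k E a} => (⟨g P.1, hfix _, by
      have := congrArg g P.2
      rw [map_mul, map_pow, AlgHom.commutes, AlgHom.commutes] at this
      exact this⟩ : {y : AlgebraicClosure k // y ^ (Nat.card k ^ m) = y ∧
      algebraMap k (AlgebraicClosure k) d * y ^ 2 = algebraMap k (AlgebraicClosure k) a}))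
      ⟨?_, ?_⟩)).symm
  · rintro ⟨x, hP⟩ ⟨x', hP'⟩ h
    simp only [Subtype.mk.injEq] at h
    exact Subtype.ext (g.toRingHom.injective h)
  · rintro ⟨y, h1, h3⟩
    rw [← hE] at h1
    obtain ⟨b, hb⟩ := pow_mem_range (E := E) h1
    rw [hg] at hb
    refine ⟨⟨b, ?_⟩, Subtype.ext hb⟩
    apply g.toRingHom.injective
    change g (algebraMap k E d * b ^ 2) = g (algebraMap k E a)
    rw [map_mul, map_pow, AlgHom.commutes, AlgHom.commutes, hb]
    exact h3

end

section
variable {k : Type} [Field k] [Fintype k] [DecidableEq k]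

/-- the quadratic character of an extension on the base field -/
theorem quadraticChar_ext (hk : ringChar k ≠ 2) {E : Type} [Field E] [Fintype E] [DecidableEq E]
    [Algebra k E] {m : ℕ} (hE : Nat.card E = Nat.card k ^ m) {d : k} (hd : d ≠ 0) :
    quadraticChar E (algebraMap k E d) = quadraticChar k d ^ m := by
  have hE2 : ringChar E ≠ 2 := by rwa [← Algebra.ringChar_eq k E]
  have hd' : algebraMap k E d ≠ 0 := by
    rwa [Ne, FaithfulSMul.algebraMap_eq_zero_iff]
  have hodd : Odd (Fintype.card k) := Nat.odd_iff.2 (FiniteField.odd_card_of_char_ne_two hk)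
  rw [Nat.card_eq_fintype_card, Nat.card_eq_fintype_card] at hE
  set q := Fintype.card k with hq
  obtain ⟨j, hj⟩ := hodd
  have hgeom : (∑ i ∈ Finset.range m, q ^ i) * (2 * j) + 1 = q ^ m := by
    have := geom_sum_mul_add (2 * j) m
    rw [← hj] at this
    exact this
  have hhalf : q ^ m / 2 = j * ∑ i ∈ Finset.range m, q ^ i := by
    have : q ^ m = 2 * (j * ∑ i ∈ Finset.range m, q ^ i) + 1 := by
      rw [← hgeom]; ring
    omega
  have hq2 : q / 2 = j := by omega
  have h1 := quadraticChar_eq_pow_of_char_ne_two' hk d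
  have h2 := quadraticChar_eq_pow_of_char_ne_two' hE2 (algebraMap k E d)
  rw [← hq, hq2] at h1
  rw [hE, hhalf, pow_mul, ← map_pow, ← h1, map_intCast] at h2
  have hoddm : Odd (∑ i ∈ Finset.range m, q ^ i) ↔ Odd m := by
    have hqo : Odd q := ⟨j, hj⟩
    rw [Finset.odd_sum_iff_odd_card_odd, Finset.filter_true_of_mem fun i _ => hqo.pow,
      Finset.card_range]
  have hinj : ∀ a b : ℤ, (a = 1 ∨ a = -1) → (b = 1 ∨ b = -1) → (a : E) = (b : E) → a = b := by
    intro a b ha hb hab
    have h11 : (1 : E) ≠ -1 := fun h => by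
      have := Ring.neg_one_ne_one_of_char_ne_two hE2
      exact this h.symm
    rcases ha with rfl | rfl <;> rcases hb with rfl | rfl
    · rfl
    · push_cast at hab
      exact absurd hab h11
    · push_cast at hab
      exact absurd hab.symm h11
    · rfl
  have hL := quadraticChar_dichotomy hd
  refine hinj _ _ (quadraticChar_dichotomy hd') ?_ ?_
  · rcases hL with h | h
    · rw [h, one_pow]; exact Or.inl rfl
    · rw [h]
      exact neg_one_pow_eq_or ℤ m
  · rw [h2]
    rcases hL with h | h
    · rw [h]; push_cast; rw [one_pow, one_pow]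
    · rw [h]
      push_cast
      by_cases hm : Odd m
      · rw [(hoddm.2 hm).neg_one_pow, hm.neg_one_pow]
      · rw [(Nat.not_odd_iff_even.1 (fun h => hm (hoddm.1 h))).neg_one_pow,
          (Nat.not_odd_iff_even.1 hm).neg_one_pow]

/-- the trace as a character sum -/
theorem trG_eq (hk : ringChar k ≠ 2) (f : k[X]) {d : k} (hd : d ≠ 0) {m : ℕ}
    {E : Type} [Field E] [Fintype E] [DecidableEq E] [Algebra k E]
    (hE : Nat.card E = Nat.card k ^ m) :
    trG k f d m = -(quadraticChar E (algebraMap k E d) *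
      ((∑ x : E, quadraticChar E ((f.map (algebraMap k E)).eval x)) +
        if Odd f.natDegree then 0 else quadraticChar E (algebraMap k E f.leadingCoeff))) := by
  classical
  have hE2 : ringChar E ≠ 2 := by rwa [← Algebra.ringChar_eq k E]
  set g : E[X] := f.map (algebraMap k E) with hg
  have hd' : algebraMap k E d ≠ 0 := by
    rwa [Ne, FaithfulSMul.algebraMap_eq_zero_iff]
  have h1 : (affPts k f d m : ℤ) = Fintype.card E +
      quadraticChar E (algebraMap k E d) * ∑ x : E, quadraticChar E (g.eval x) := by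
    rw [affPts_eq f d m E hE]
    have e1 : {P : E × E // algebraMap k E d * P.2 ^ 2 = aeval P.1 f} =
        {P : E × E // algebraMap k E d * P.2 ^ 2 = g.eval P.1} := by
      congr 1
      funext P
      rw [hg, eval_map, aeval_def]
    rw [e1]
    exact card_aff hE2 g (algebraMap k E d) hd'
  rw [← Nat.card_eq_fintype_card, hE] at h1
  unfold trG infPts
  rw [h1]
  split_ifs with h2
  · push_cast
    ring
  · rw [infPts_eq f.leadingCoeff d m E hE,
      H341R2.card_sqrt hE2 (algebraMap k E d) (algebraMap k E f.leadingCoeff) hd']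
    push_cast
    ring

theorem trG_twist (hk : ringChar k ≠ 2) (f : k[X]) {d : k} (hd : d ≠ 0) {m : ℕ} (hm : m ≠ 0) :
    trG k f d m = quadraticChar k d ^ m * trG k f 1 m := by
  classical
  obtain ⟨E, i1, i2, i3, hE⟩ := exists_ext (k := k) m hm
  let _ := Fintype.ofFinite E
  rw [trG_eq hk f hd hE, trG_eq hk f one_ne_zero hE, map_one, map_one,
    quadraticChar_ext hk hE hd]
  ring

theorem trG_bound (hk : ringChar k ≠ 2) (f : k[X]) (hn : 1 ≤ f.natDegree)
    (hf : f.Separable) {m : ℕ} (hm : m ≠ 0) :
    |(trG k f 1 m : ℝ)| ≤ f.natDegree * Real.sqrt ((Nat.card k : ℝ) ^ m) := by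
  classical
  obtain ⟨E, i1, i2, i3, hE⟩ := exists_ext (k := k) m hm
  let _ := Fintype.ofFinite E
  have hE2 : ringChar E ≠ 2 := by rwa [← Algebra.ringChar_eq k E]
  rw [trG_eq hk f one_ne_zero hE, map_one, map_one]
  set g : E[X] := f.map (algebraMap k E) with hg
  have hgd : g.natDegree = f.natDegree := natDegree_map _
  have hgs : g.Separable := hf.map
  have h4 := H341R2.Sharp.weil_sharp hE2 g (by rw [hgd]; exact hn) (by
    intro c h hgh
    have h5 : h * h ∣ g := by
      rw [hgh, sq]
      exact Dvd.intro_left _ rfl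
    have h6 : IsUnit h := hgs.squarefree h h5
    have h7 : g.natDegree = 0 := by
      rw [hgh]
      have h8 : h.natDegree = 0 := natDegree_eq_zero_of_isUnit h6
      have h9 := natDegree_C_mul_le c (h ^ 2)
      rw [natDegree_pow, h8, mul_zero] at h9
      omega
    omega)
  rw [hgd] at h4
  have h5 : (Fintype.card E : ℝ) = (Nat.card k : ℝ) ^ m := by
    rw [← Nat.card_eq_fintype_card, hE]
    push_cast
    rfl
  rw [h5] at h4
  have h6 : (1 : ℝ) ≤ Real.sqrt ((Nat.card k : ℝ) ^ m) := by
    rw [Real.one_le_sqrt, ← h5]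
    exact_mod_cast Fintype.card_pos
  push_cast
  rw [abs_neg, one_mul]
  refine (abs_add_le _ _).trans ?_
  have h7 : |(if Odd f.natDegree then (0 : ℝ) else
      (quadraticChar E (algebraMap k E f.leadingCoeff) : ℝ))| ≤ 1 := by
    split_ifs
    · simp
    · by_cases h0 : algebraMap k E f.leadingCoeff = 0
      · simp [h0]
      · rcases quadraticChar_dichotomy h0 with h | h <;> simp [h]
  have h8 : (f.natDegree : ℝ) * Real.sqrt ((Nat.card k : ℝ) ^ m) =
      (f.natDegree - 1) * Real.sqrt ((Nat.card k : ℝ) ^ m) +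
        1 * Real.sqrt ((Nat.card k : ℝ) ^ m) := by ring
  rw [h8, one_mul]
  exact add_le_add h4 (h7.trans h6)

end


section
variable {k : Type} [Field k]

theorem aeval_comp_CX (g : k[X]) (u : k) (x : AlgebraicClosure k) :
    aeval x (g.comp (C u * X)) = aeval (algebraMap k (AlgebraicClosure k) u * x) g := by
  rw [aeval_comp]
  simp

theorem affPts_comp [Finite k] (g : k[X]) {u : k} (hu : u ≠ 0) (d : k) (m : ℕ) :
    affPts k (g.comp (C u * X)) d m = affPts k g d m := by
  have hu' : algebraMap k (AlgebraicClosure k) u ≠ 0 := by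
    rwa [Ne, FaithfulSMul.algebraMap_eq_zero_iff]
  have hfix : algebraMap k (AlgebraicClosure k) u ^ (Nat.card k ^ m) = algebraMap k (AlgebraicClosure k) u := by
    rw [← map_pow]
    congr 1
    let _ := Fintype.ofFinite k
    rw [Nat.card_eq_fintype_card]
    induction m with
    | zero => simp
    | succ m ih => rw [pow_succ, pow_mul, ih, FiniteField.pow_card]
  unfold affPts
  refine Nat.card_congr (Equiv.subtypeEquiv
    ((Equiv.mulLeft₀ _ hu').prodCongr (Equiv.refl _)) fun P => ?_)
  have e1 : ((Equiv.mulLeft₀ _ hu').prodCongr (Equiv.refl _)) P =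
    (algebraMap k (AlgebraicClosure k) u * P.1, P.2) := rfl
  rw [e1, aeval_comp_CX]
  simp only [mul_pow, hfix]
  refine and_congr ?_ Iff.rfl
  constructor
  · intro h
    rw [h]
  · intro h
    exact mul_left_cancel₀ hu' h

theorem natDegree_comp_CX (g : k[X]) {u : k} (hu : u ≠ 0) : (g.comp (C u * X)).natDegree = g.natDegree := by
  rw [natDegree_comp, natDegree_C_mul_X _ hu, mul_one]

theorem leadingCoeff_comp_CX (g : k[X]) {u : k} (hu : u ≠ 0) :
    (g.comp (C u * X)).leadingCoeff = g.leadingCoeff * u ^ g.natDegree := by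
  rw [leadingCoeff_comp (by rw [natDegree_C_mul_X _ hu]; exact one_ne_zero), leadingCoeff_C_mul_X]

theorem infPts_comp [Finite k] (g : k[X]) {u : k} (hu : u ≠ 0) (d : k) (m : ℕ) :
    infPts k (g.comp (C u * X)) d m = infPts k g d m := by
  unfold infPts
  rw [natDegree_comp_CX g hu, leadingCoeff_comp_CX g hu]
  split_ifs with hodd
  · rfl
  · obtain ⟨e, he⟩ := Nat.not_odd_iff_even.1 hodd
    have hu' : algebraMap k (AlgebraicClosure k) u ≠ 0 := by
      rwa [Ne, FaithfulSMul.algebraMap_eq_zero_iff]
    have hfix : algebraMap k (AlgebraicClosure k) u ^ (Nat.card k ^ m) = algebraMap k (AlgebraicClosure k) u := by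
      rw [← map_pow]
      congr 1
      let _ := Fintype.ofFinite k
      rw [Nat.card_eq_fintype_card]
      induction m with
      | zero => simp
      | succ m ih => rw [pow_succ, pow_mul, ih, FiniteField.pow_card]
    set U := algebraMap k (AlgebraicClosure k) u with hU
    have hUe : U ^ e ≠ 0 := pow_ne_zero _ hu'
    symm
    refine Nat.card_congr (Equiv.subtypeEquiv (Equiv.mulLeft₀ _ hUe) fun y => ?_)
    have e1 : (Equiv.mulLeft₀ _ hUe) y = U ^ e * y := rfl
    rw [e1]
    simp only [mul_pow]
    have h1 : (U ^ e) ^ (Nat.card k ^ m) = U ^ e := by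
      rw [← pow_mul, mul_comm, pow_mul, hfix]
    rw [h1]
    refine and_congr ?_ ?_
    · constructor
      · intro h
        rw [h]
      · intro h
        exact mul_left_cancel₀ hUe h
    · rw [map_mul, map_pow, ← hU, he, pow_add]
      constructor
      · intro h
        rw [← h]
        ring
      · intro h
        have h2 : U ^ e * U ^ e ≠ 0 := mul_ne_zero hUe hUe
        apply mul_left_cancel₀ h2
        linear_combination h

theorem trG_comp [Finite k] (g : k[X]) {u : k} (hu : u ≠ 0) (d : k) (m : ℕ) :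
    trG k (g.comp (C u * X)) d m = trG k g d m := by
  unfold trG
  rw [affPts_comp g hu, infPts_comp g hu]

theorem trG_C_mul (g : k[X]) {t : k} (ht : t ≠ 0) (m : ℕ) :
    trG k (C t * g) 1 m = trG k g t⁻¹ m := by
  have ht' : algebraMap k (AlgebraicClosure k) t ≠ 0 := by
    rwa [Ne, FaithfulSMul.algebraMap_eq_zero_iff]
  have h0 : ∀ y z : AlgebraicClosure k, algebraMap k (AlgebraicClosure k) 1 * y = algebraMap k (AlgebraicClosure k) t * z ↔
      algebraMap k (AlgebraicClosure k) t⁻¹ * y = z := by
    intro y z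
    rw [map_one, one_mul, map_inv₀]
    constructor
    · rintro rfl
      rw [← mul_assoc, inv_mul_cancel₀ ht', one_mul]
    · rintro rfl
      rw [← mul_assoc, mul_inv_cancel₀ ht', one_mul]
  unfold trG affPts infPts
  have hl : (C t * g).leadingCoeff = t * g.leadingCoeff := by rw [leadingCoeff_mul, leadingCoeff_C]
  rw [natDegree_C_mul ht, hl]
  have h1 : ∀ P : AlgebraicClosure k × AlgebraicClosure k,
      algebraMap k (AlgebraicClosure k) 1 * P.2 ^ 2 = aeval P.1 (C t * g) ↔
      algebraMap k (AlgebraicClosure k) t⁻¹ * P.2 ^ 2 = aeval P.1 g := by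
    intro P
    rw [map_mul, aeval_C]
    exact h0 _ _
  have h2 : ∀ y : AlgebraicClosure k, algebraMap k (AlgebraicClosure k) 1 * y ^ 2 =
      algebraMap k (AlgebraicClosure k) (t * g.leadingCoeff) ↔
      algebraMap k (AlgebraicClosure k) t⁻¹ * y ^ 2 = algebraMap k (AlgebraicClosure k) g.leadingCoeff := by
    intro y
    rw [map_mul]
    exact h0 _ _
  simp only [h1, h2]

end

section
variable {k : Type} [Field k] [Fintype k] [DecidableEq k]

/-- the effect of a scaling on the traces -/
theorem trG_scale (hk : ringChar k ≠ 2) {g g' : k[X]} {u t : k} (hu : u ≠ 0) (ht : t ≠ 0)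
    (h : g'.comp (C u * X) = C t * g) {m : ℕ} (hm : m ≠ 0) :
    trG k g' 1 m = quadraticChar k t ^ m * trG k g 1 m := by
  rw [← trG_comp g' hu 1 m, h, trG_C_mul g ht, trG_twist hk g (inv_ne_zero ht) hm]
  congr 2
  have h1 : quadraticChar k t * quadraticChar k t⁻¹ = 1 := by
    rw [← map_mul, mul_inv_cancel₀ ht, map_one]
  rcases quadraticChar_dichotomy ht with h2 | h2 <;> rw [h2] at h1 ⊢ <;> linarith

end

section
variable {k : Type} [Field k]

theorem sep_comp {g : k[X]} (h : g.Separable) {u : k} (hu : u ≠ 0) : (g.comp (C u * X)).Separable := by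
  have h1 : IsCoprime (g.comp (C u * X)) (g.derivative.comp (C u * X)) :=
    IsCoprime.map h (compRingHom (C u * X))
  have h2 : (g.comp (C u * X)).derivative = C u * g.derivative.comp (C u * X) := by
    rw [derivative_comp]
    simp
  unfold Polynomial.Separable
  rw [h2]
  exact (isCoprime_mul_unit_left_right (isUnit_C.2 hu.isUnit) _ _).2 h1

theorem sep_C_mul {g : k[X]} {t : k} (ht : t ≠ 0) : (C t * g).Separable ↔ g.Separable := by
  unfold Polynomial.Separable
  rw [derivative_C_mul, isCoprime_mul_unit_left (isUnit_C.2 ht.isUnit)]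

theorem comp_comp_inv (g : k[X]) {u : k} (hu : u ≠ 0) : (g.comp (C u * X)).comp (C u⁻¹ * X) = g := by
  rw [comp_assoc]
  have : (C u * X : k[X]).comp (C u⁻¹ * X) = X := by
    rw [mul_comp, C_comp, X_comp, ← mul_assoc, ← C_mul, mul_inv_cancel₀ hu, C_1, one_mul]
  rw [this, comp_X]

/-- scalings do not change the degree and the separability -/
theorem sep_scale {g g' : k[X]} {u t : k} (hu : u ≠ 0) (ht : t ≠ 0) (h : g'.comp (C u * X) = C t * g) :
    (g'.Separable ↔ g.Separable) ∧ g'.natDegree = g.natDegree := by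
  refine ⟨⟨fun h1 => ?_, fun h1 => ?_⟩, ?_⟩
  · have h2 := sep_comp h1 hu
    rw [h] at h2
    exact (sep_C_mul ht).1 h2
  · have h2 : (g'.comp (C u * X)).Separable := by
      rw [h]
      exact (sep_C_mul ht).2 h1
    have h3 := sep_comp h2 (inv_ne_zero hu)
    rwa [comp_comp_inv g' hu] at h3
  · rw [← natDegree_comp_CX g' hu, h, natDegree_C_mul ht]

end

end Pool.Agent.N534.HC
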